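import Pool.Agent.Helper85.QT.Defs

/-!
# Project QT (stage 2 of QD, MP_d112a4_gt): statements 1, the hull function, shells, Canary's bound, the resolvent

Every module `X` proves `theorem hX (h1 : StA) ... : StX`, the statements listed as hypotheses may be used.  Complete proofs in the docstrings.
Write `x = (z,t)`, `v_ξ` for the column vector `(ξ,1)`; `LS A B` is the finite part of the limit set (`∞` is the other limit point).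
-/

set_option autoImplicit false

open MeasureTheory Matrix Set Topology
open scoped ENNReal ComplexConjugate

namespace Pool.Agent.Helper85.QT

open Pool.Agent.Helper86.QA
open Pool.Agent.Helper35.PM (hs)

/-- SB0 (algebra of Hermitian forms).

Proof. (1) `tr (H Xm x) = (1/t)(H₀₀(|z|²+t²) + H₀₁ conj z + H₁₀ z + H₁₁)`, and `qf H z` is the real part of `H₀₀|z|² + conj z H₀₁ + H₁₀ z + H₁₁`.  (2) direct: `det (bH c r) = (|c|²-r²)/r² - |c|²/r² = -1`, then (1).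
(3) `H' = (g⁻¹)ᴴ H g⁻¹` is Hermitian of determinant `-1`; `tr (H' (g X gᴴ)) = tr (H X)` (cyclicity; ACT: `Xm (ga g x) = g Xm x gᴴ`).  (4) `qf H ξ = Re v_ξᴴ H v_ξ`, `g v_ξ = (cξ+d) v_(gξ)`, so `v_ξᴴ H v_ξ = (g v_ξ)ᴴ H' (g v_ξ) = |cξ+d|² v_(gξ)ᴴ H' v_(gξ)`.
(5) `H'₀₀ = e₀ᴴ H' e₀ = (g⁻¹e₀)ᴴ H (g⁻¹e₀)`, `g⁻¹ e₀ = (d, -c)`: if `c ≠ 0` this is `|c|² qf H (-d/c)`, if `c = 0` it is `|d|² H₀₀`.
Hypotheses: hACT. -/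
def StSB0 : Prop :=
  (∀ (H : Mat) (x : Pt), H.IsHermitian → x ∈ up →
    2 * x.2 * hf H x = -(qf H x.1 + (H 0 0).re * x.2 ^ 2)) ∧
  (∀ (c : ℂ) (r : ℝ), 0 < r → (bH c r).IsHermitian ∧ (bH c r).det = -1 ∧ ((bH c r) 0 0).re = 1 / r ∧
    (∀ ξ : ℂ, qf (bH c r) ξ = (‖ξ - c‖ ^ 2 - r ^ 2) / r) ∧
    (∀ x ∈ up, hf (bH c r) x = (r ^ 2 - ‖x.1 - c‖ ^ 2 - x.2 ^ 2) / (2 * r * x.2))) ∧
  (∀ (H : Mat) (g : SL), H.IsHermitian → H.det = -1 →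
    (((g⁻¹ : SL) : Mat)ᴴ * H * ((g⁻¹ : SL) : Mat)).IsHermitian ∧
    (((g⁻¹ : SL) : Mat)ᴴ * H * ((g⁻¹ : SL) : Mat)).det = -1 ∧
    (∀ x ∈ up, hf (((g⁻¹ : SL) : Mat)ᴴ * H * ((g⁻¹ : SL) : Mat)) (ga g x) = hf H x) ∧
    (∀ ξ : ℂ, g 1 0 * ξ + g 1 1 ≠ 0 →
      qf (((g⁻¹ : SL) : Mat)ᴴ * H * ((g⁻¹ : SL) : Mat)) (mb g ξ) * ‖g 1 0 * ξ + g 1 1‖ ^ 2 = qf H ξ) ∧
    (g 1 0 ≠ 0 → ((((g⁻¹ : SL) : Mat)ᴴ * H * ((g⁻¹ : SL) : Mat)) 0 0).re =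
      ‖g 1 0‖ ^ 2 * qf H (-(g 1 1 / g 1 0))) ∧
    (g 1 0 = 0 → ((((g⁻¹ : SL) : Mat)ᴴ * H * ((g⁻¹ : SL) : Mat)) 0 0).re =
      ‖g 1 1‖ ^ 2 * (H 0 0).re))

/-- SB1 (the supremum is finite).

Proof. (1) `ℂ` is connected, `A`, `B` are disjoint, open, nonempty, so `A ∪ B ≠ ℂ`.  (2) a ball inside `A` (open, nonempty); (4) gives an admissible form.  (4) `qf (bH c r) ξ = (|ξ-c|²-r²)/r ≥ 0` for `ξ ∉ ball c r`.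
(3) Let `H` be admissible, `α = Re H₀₀ ≥ 0` (`H₀₀` is real), `H₀₁ = β`, `H₁₀ = conj β`, `q₀ = qf H ξ₀ ≥ 0`, `D = |z-ξ₀|`.  Expand: `qf H z = q₀ + 2 Re((α conj ξ₀ + conj β)(z-ξ₀)) + α D²` and `|α ξ₀ + β|² = α q₀ + 1` (`det H = α δ - |β|² = -1`: `α q₀ = |αξ₀+β|² + αδ - |β|²`).  So
`qf H z ≥ q₀ - 2 √(αq₀+1) D + αD²`, and this is `≥ -2D`: if `αD ≤ 1`... put `w = √(αq₀+1) ≥ 1`.  If `α = 0`: `q₀ - 2D ≥ -2D`.  If `α > 0`: `q₀ = (w²-1)/α`, `α(q₀ - 2wD + αD² + 2D) = w² - 1 - 2αDw + α²D² + 2αD = (w - αD)² - 1 + 2αD`; with `y = αD`, `w ≥ 1`: if `y ≥ 1/2` it is `≥ 0`; if `y < 1/2` then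
`w - y ≥ 1 - y > 0`, `(w-y)² ≥ (1-y)²`, total `≥ y² ≥ 0`.  By SB0 (1): `2t hf H x = -(qf H z + αt²) ≤ 2D`.  (5) is `le_csSup`, `csSup_le`.
Hypotheses: hSB0. -/
def StSB1 : Prop := ∀ (Γ : Type) [Group Γ] (ρ : Γ →* SL) (A B : Set ℂ), KD ρ A B →
  (LS A B).Nonempty ∧ IsClosed (LS A B) ∧ (∃ H, AdF A B H) ∧
  (∀ H, AdF A B H → ∀ x ∈ up, ∀ ξ ∈ LS A B, hf H x ≤ ‖x.1 - ξ‖ / x.2) ∧
  (∀ (c : ℂ) (r : ℝ), 0 < r → Disjoint (Metric.ball c r) (LS A B) → AdF A B (bH c r)) ∧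
  (∀ x ∈ up, BddAbove {v : ℝ | ∃ H : Mat, AdF A B H ∧ v = hf H x} ∧
    (∀ H, AdF A B H → hf H x ≤ sb A B x) ∧ (∀ ξ ∈ LS A B, sb A B x ≤ ‖x.1 - ξ‖ / x.2))

/-- SB2 (near the hull there are limit points).

Proof. Otherwise the closed ball, hence `ball z r` with `r = (2S+2)t`, is disjoint from `LS`, `bH z r` is admissible (SB1) and `hf (bH z r) x = (r²-t²)/(2rt) = ((2S+2)²-1)/(2(2S+2)) = S + (4S+3)/(4S+4) > S` (SB0), a contradiction to SB1 (last part).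
Hypotheses: hSB0 hSB1. -/
def StSB2 : Prop := ∀ (Γ : Type) [Group Γ] (ρ : Γ →* SL) (A B : Set ℂ), KD ρ A B →
  ∀ S : ℝ, 0 ≤ S → ∀ x ∈ up, sb A B x ≤ S → ∃ ξ ∈ LS A B, ‖x.1 - ξ‖ ≤ (2 * S + 2) * x.2

/-- SB3 (invariance).

Proof. (1) Let `g = ρ γ`.  If `ξ ∈ LS` and `cξ+d ≠ 0` then `mb g ξ ∈ LS`: if it were in `A` then by `mpA` for `γ⁻¹` its image `mb (g⁻¹) (mb g ξ) = ξ` would be in `A` (CHV (2), (4)); same for `B`.  (2) if `c ≠ 0` then `-d/c ∈ LS` (the denominator does not vanish on `A ∪ B`) and `a/c ∈ LS` (the same for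
`g⁻¹ = [[d,-b],[-c,a]]`, denominator `-cξ+a`).  (3) Let `H` be admissible, `H' = (g⁻¹)ᴴ H g⁻¹`.  By SB0 (3) it is Hermitian, determinant `-1`; `Re H'₀₀ ≥ 0` by SB0 (5) and (2).  For `η ∈ LS`: if `-cη+a ≠ 0` let `ξ = mb (g⁻¹) η ∈ LS`, `cξ+d ≠ 0`, `mb g ξ = η`, so `qf H' η |cξ+d|² = qf H ξ ≥ 0`.  If `-cη + a = 0` then `c ≠ 0`
(otherwise `a = 0` too), `η = a/c`; `v_η = (1/c) g e₀`-multiple: `g e₀ = (a,c) = c v_η`, so `|c|² qf H' η = e₀ᴴ H e₀ = H₀₀ ≥ 0`.  So `H'` is admissible and `hf H' (ga g x) = hf H x`: `sb (ga g x) ≥ sb x`; apply this to `γ⁻¹` and `ga g x` (ACT (2), (3)).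
Hypotheses: hACT hCHV hSB0 hSB1. -/
def StSB3 : Prop := ∀ (Γ : Type) [Group Γ] (ρ : Γ →* SL) (A B : Set ℂ), KD ρ A B →
  (∀ (γ : Γ), ∀ x ∈ up, sb A B (ga (ρ γ) x) = sb A B x) ∧
  (∀ (γ : Γ), ∀ ξ ∈ LS A B, ρ γ 1 0 * ξ + ρ γ 1 1 ≠ 0 → mb (ρ γ) ξ ∈ LS A B) ∧
  (∀ (γ : Γ), ρ γ 1 0 ≠ 0 → -(ρ γ 1 1 / ρ γ 1 0) ∈ LS A B ∧ ρ γ 0 0 / ρ γ 1 0 ∈ LS A B)

/-- SB4 (Lipschitz property).

Proof. (1) for one form `H`, `v = hf H x`: `hf H y ≤ v ch x y + √(1+v²) √(ch x y² - 1)`.  With `g = gx x` (ACT (5): `ga g oo = x`) and `H₁ = gᴴ H g` (Hermitian, determinant `-1`), `Y = g⁻¹ Xm y (g⁻¹)ᴴ` (positive, determinant 1, `tr Y = 2 ch x y` by CHI (1)): `hf H x = -(1/2) tr H₁` (as `Xm x = g gᴴ`, `Xm oo = 1`),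
`hf H y = -(1/2) tr (H₁ Y)`.  Write `H₁ = -v 1 + H₀`, `Y = ch 1 + Y₀` with `H₀, Y₀` Hermitian of trace zero: `H₀ = [[p, q],[conj q, -p]]`, `p² + |q|² = v² + 1` (`det H₁ = v² - p² - |q|² = -1`), `Y₀ = [[p',q'],[conj q',-p']]`, `p'²+|q'|² = ch² - 1`; `tr (H₁ Y) = -2 v ch + 2(pp' + Re(q conj q'))`, and Cauchy-Schwarz.
(2) the function `v ↦ v c + √(1+v²) s`, `0 ≤ s ≤ c`, is increasing (derivative `c + s v/√(1+v²) ≥ c - s ≥ 0`; or: for `v ≤ w`, `√(1+v²) - √(1+w²) ≤ w - v`); take the supremum over `H` (SB1).  (3) `c ≤ 2`, `s ≤ 2`: `2S + 2√(1+S²) ≤ 4S+2`.  (4) `sb` is locally Lipschitz by (2) used for `(x,y)` and `(y,x)` (`ch x y → 1` as `y → x`, locally bounded by SB1).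
Hypotheses: hACT hCHI hSB0 hSB1. -/
def StSB4 : Prop := ∀ (Γ : Type) [Group Γ] (ρ : Γ →* SL) (A B : Set ℂ), KD ρ A B →
  (∀ x ∈ up, ∀ y ∈ up, sb A B y ≤ sb A B x * ch x y +
    Real.sqrt (1 + sb A B x ^ 2) * Real.sqrt (ch x y ^ 2 - 1)) ∧
  (∀ S : ℝ, 0 ≤ S → ∀ x ∈ up, ∀ y ∈ up, ch x y ≤ 2 → sb A B x ≤ S → sb A B y ≤ 4 * S + 2) ∧
  ContinuousOn (sb A B) up ∧ (∀ S : ℝ, MeasurableSet {x : Pt | x ∈ up ∧ sb A B x ≤ S})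

/-- SB5 (geodesics with endpoints in the limit set).

Proof. Let `p = e^u`, `q = e^(-u)`, `l = |a-b|`.  `Xm (gp a b u) = (p/l) v_a v_aᴴ + (q/l) v_b v_bᴴ`: the (1,1) entry is `(p+q)/l = 1/t`, the (0,1) entry `(p a + q b)/l = z/t`, and the (0,0) entry `(p|a|²+q|b|²)/l` equals `(|z|²+t²)/t` because both sides complete a matrix of determinant one
(`(p|a|²+q|b|²)(p+q) - |pa+qb|² = pq|a-b|² = l²`).  So `tr (H Xm) = (p/l) qf H a + (q/l) qf H b ≥ 0` for admissible `H`: `hf H ≤ 0`, `sb ≤ 0`.  `ch`: `2 ch x y = tr (Xm x⁻¹ Xm y)`, or direct computation `= cosh (u-u')`.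
Hypotheses: hCHI hSB0 hSB1. -/
def StSB5 : Prop :=
  (∀ (a b : ℂ) (u u' : ℝ), a ≠ b → gp a b u ∈ up ∧ ch (gp a b u) (gp a b u') = Real.cosh (u - u')) ∧
  (∀ (Γ : Type) [Group Γ] (ρ : Γ →* SL) (A B : Set ℂ), KD ρ A B →
    ∀ a ∈ LS A B, ∀ b ∈ LS A B, a ≠ b → ∀ u : ℝ, sb A B (gp a b u) ≤ 0)

/-- SB6 (cocompactness near the hull).

Proof. Let `K, KA, KB, τ` be as in `cpt`; `KA` compact in the open set `A`, so there is `r > 0` with `ball ξ r ⊆ A` for `ξ ∈ KA`, same for `KB` (`IsCompact.exists_thickening_subset_open`).  If `sb x ≤ S` and `y = ga (ρ γ) x` has `y.1 ∈ KA`, `y.2 < τ`: `sb y = sb x` (SB3), `bH y.1 r` is admissible (SB1), so `(r²-y.2²)/(2 r y.2) ≤ S`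
(SB0), hence `r² ≤ 2 r S y.2 + y.2²` and `y.2 ≥ min (r/(4S+4)) ..`: indeed `y.2 < r/(2S+2)` would give `2rS y.2 + y.2² < r² S/(S+1) + r²/(4(S+1)²) ≤ r²`... (`S/(S+1) + 1/(4(S+1)²) < 1`).  The compact set is `K ∪ KA × [r/(2S+2), τ] ∪ KB × [r/(2S+2), τ]` (for `S ≥ 0`).
Hypotheses: hSB0 hSB1 hSB3. -/
def StSB6 : Prop := ∀ (Γ : Type) [Group Γ] (ρ : Γ →* SL) (A B : Set ℂ), KD ρ A B →
  ∀ S : ℝ, 0 ≤ S → ∃ K : Set Pt, IsCompact K ∧ K ⊆ up ∧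
    ∀ x ∈ up, sb A B x ≤ S → ∃ γ : Γ, au ρ γ x ∈ K

/-- SB7 (outside the hull there is a disc in `A` or in `B`).

Proof. There is an admissible `H` with `hf H x > 0` (`lt_csSup_iff`/`exists_lt_of_lt_csSup`).  `α = Re H₀₀`, `H₀₁ = β`, `H₁₁ = δ` real.  If `α > 0`: `c = -β/α`, `r = 1/α`: `qf H ξ = α|ξ-c|² - 1/α` (`δ = (|β|²-1)/α`), so `ball c r` is disjoint from `LS`, and `2t hf H x = -(α|z-c|² - 1/α + αt²) > 0` is `|z-c|²+t² < r²`.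
If `α = 0`: `|β| = 1`, `qf H ξ = 2 Re(conj β ξ) + δ`, and `-qf H z = 2κ > 0`.  Take `c = z + (κ... )`: `c = z - Rβ`, `r = R + κ/2`... check: `ξ ∈ ball c r` gives `Re(conj β ξ) ≤ Re (conj β c) + r = Re(conj β z) - R + r`, i.e. `qf H ξ ≤ -2κ + 2(r - R)`, negative if `r - R < κ`; and `|z-c|²+t² = R²+t² < r² = R² + κR + κ²/4` for `R` large.
So in all cases a ball disjoint from `LS`; it is connected and contained in `A ∪ B` (disjoint open sets), so in `A` or in `B`.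
Hypotheses: hSB0 hSB1. -/
def StSB7 : Prop := ∀ (Γ : Type) [Group Γ] (ρ : Γ →* SL) (A B : Set ℂ), KD ρ A B →
  ∀ x ∈ up, 0 < sb A B x → ∃ (c : ℂ) (r : ℝ), 0 < r ∧ ‖x.1 - c‖ ^ 2 + x.2 ^ 2 < r ^ 2 ∧
    (Metric.ball c r ⊆ A ∨ Metric.ball c r ⊆ B)

/-- SH1 (the set `ZZ` is measurable and invariant).

Proof. Measurable: `up ×ˢ A` is open; on it the conditions `1 ≤ 4 t pp x ξ` and `1 ≤ 4|ξ-k|² pp x ξ pp x k` (`k ∈ LS`) are closed conditions (`pp x ξ = t/(|z-ξ|²+t²)` is continuous on `up × ℂ`), an arbitrary intersection of relatively closed sets is relatively closed; `sb` is measurable on `up` (SB4).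
Invariance: let `g = ρ γ`, `(x,ξ) ∈ ZZ`, `y = ga g x`, `η = mb g ξ ∈ A`, `j = |cξ+d|`.  `pp y η = pp x ξ j²` (POI (1)).  (a) Let `k' ∈ LS`.  If `-ck'+a ≠ 0` put `k = mb (g⁻¹) k' ∈ LS` (SB3), `k' = mb g k`, `ck+d ≠ 0`; `|η-k'|² = |ξ-k|²/(j²|ck+d|²)` (CHV (3)), `pp y k' = pp x k |ck+d|²`, so the product is unchanged.
If `-ck'+a = 0` then `c ≠ 0`, `k' = a/c`, `η - a/c = -1/(c(cξ+d))`, and `pp y (a/c) = |c|² t`: (ACT (1) gives `Xm y = g Xm x gᴴ`; or POI (2): `pp y k' = (ga (gi k') y).2` and `gi (a/c) * g` has lower row `(a - (a/c)c, b - (a/c)d) = (0, -1/c)`, so the height is `t/|1/c|²`); product `4 · |c|⁻²j⁻² · pp x ξ j² · |c|² t = 4 t pp x ξ ≥ 1`.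
(b) `4 y.2 pp y η ≥ 1`: if `c = 0`: `y.2 = t/|d|²`, `j = |d|`, equal to `4 t pp x ξ`.  If `c ≠ 0`: `k = -d/c ∈ LS` (SB3), `y.2 = t/den g x`, `den g x = |c|²(|z-k|²+t²) = |c|² t/pp x k`, so `y.2 = pp x k/|c|²`, `j² = |c|²|ξ-k|²`: `4 y.2 pp y η = 4 |ξ-k|² pp x k pp x ξ ≥ 1`.  (c) `sb y = sb x` (SB3).
Hypotheses: hACT hPOI hCHV hSB3 hSB4. -/
def StSH1 : Prop := ∀ (Γ : Type) [Group Γ] (ρ : Γ →* SL) (A B : Set ℂ), KD ρ A B → ∀ S : ℝ,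
  MeasurableSet (ZZ A B S) ∧
  ∀ (γ : Γ) (x : Pt) (ξ : ℂ), (x, ξ) ∈ ZZ A B S → (ga (ρ γ) x, mb (ρ γ) ξ) ∈ ZZ A B S

/-- SH2 (spherical geometry).

Proof. By the affine map `ξ ↦ (ξ - z)/t` (`pp x ξ = t⁻¹ pp oo ((ξ-z)/t)`) assume `x = oo`; by a rotation assume `c ≥ 0` real.  Now `r² > c²+1`.  Write `Q(ξ,k) = 2|ξ-k|/√((1+|ξ|²)(1+|k|²))`, so `4|ξ-k|² pp oo ξ pp oo k = Q(ξ,k)²`, and `Q(ξ,∞) = 2/√(1+|ξ|²)`, `4 pp oo ξ = Q(ξ,∞)²`.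
*Triangle inequality*: `(a-b)(1+|c'|²) = (a-c')(1+conj c' b) + (c'-b)(1+conj c' a)` and `|1+conj c' b| ≤ √((1+|c'|²)(1+|b|²))`; dividing, `Q(a,b) ≤ Q(a,c') + Q(c',b)`; `Q(a,∞) ≤ Q(a,c') + Q(c',∞)`: `|√(1+|a|²)⁻¹ - √(1+|c'|²)⁻¹| ≤ |a-c'|/√(..)√(..)`.
Let `T = c + √(c²+1) ≥ 1`, `m₀ = (T-1)/(T+1) ∈ [0,1)`, so `2m₀/(1-m₀²) = (T - 1/T)/2 = c`.  For `k ∉ ball c r`: `|k-c|² ≥ r² > c²+1`, i.e. `|k|² - 2c Re k > 1`, i.e. `(1-m₀²)|k|² - 4 m₀ Re k > 1 - m₀²`, i.e. `2|m₀-k|² > (1+m₀²)(1+|k|²)`, i.e. `Q(m₀,k)² > 2`.  `Q(m₀,∞)² = 4/(1+m₀²) > 2`.  If `|ξ-m₀| < 1/5` then `Q(ξ,m₀) ≤ 2/5`, so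
`Q(ξ,k) ≥ √2 - 2/5 > 1`, `Q(ξ,∞) > 1`.  In particular `ξ ≠ k` for `k ∉ ball c r`, i.e. `ξ ∈ ball c r`. -/
def StSH2 : Prop := ∀ x ∈ up, ∀ (c : ℂ) (r : ℝ), 0 < r → ‖x.1 - c‖ ^ 2 + x.2 ^ 2 < r ^ 2 →
  ∃ m₀ : ℂ, ‖m₀ - x.1‖ ≤ x.2 ∧ Metric.ball m₀ (x.2 / 5) ⊆ Metric.ball c r ∧
    ∀ ξ ∈ Metric.ball m₀ (x.2 / 5), 1 ≤ 4 * x.2 * pp x ξ ∧
      ∀ k ∉ Metric.ball c r, 1 ≤ 4 * ‖ξ - k‖ ^ 2 * pp x ξ * pp x k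

/-- KQ (Koebe's quarter theorem and its consequence for the hyperbolic metric).

Proof. (1) classical: with `h = (g - g 0)/g' 0 = z + a₂ z² + ...` injective, `|a₂| ≤ 2` (area theorem for `1/√(h(1/ζ²))`), and if `h` omits `κ ≠ 0` then `κh/(κ-h) = z + (a₂ + 1/κ) z² + ...` is injective, so `|1/κ| ≤ 4`.  (Search the library for the area theorem / Koebe: Helper61, Helper64, Helper20/QD, Helper68 may have it.)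
(2) Let `u = F ξ`, `y = Im u > 0`, `G` the inverse of `F : A → HP`, `g(ζ) = G(u₁)` with `u₁ = (u - conj u ζ)/(1-ζ)` (Cayley map of the unit disc onto `HP`, `g 0 = ξ`, derivative of `u₁` at `0` is `u - conj u = 2iy`).  `|g' 0| = 2y |G'(u)| = 2y/|F' ξ|`.  `k ∉ A` is omitted by `g`: `2y/|F'ξ| ≤ 4|ξ-k|`, i.e. `|F'ξ|²/y² ≥ 1/(4|ξ-k|²)`.
(3) Koebe for the derivative at a point of a univalent function on a ball: `ball (g w) (r‖g' w‖/4) ⊆ g '' ball w r`: from (1) by scaling.  (4) growth: for `h` as above and `|z| < 1`: `|z|/(1+|z|)² ≤ |h z| ≤ |z|/(1-|z|)²` (from `|a₂| ≤ 2` for the functions `h((z+w)/(1+conj w z))`, integrate; classical). -/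
def StKQ : Prop :=
  (∀ g : ℂ → ℂ, DifferentiableOn ℂ g (Metric.ball 0 1) → InjOn g (Metric.ball 0 1) →
    ∀ k ∉ g '' Metric.ball 0 1, ‖deriv g 0‖ ≤ 4 * ‖k - g 0‖) ∧
  (∀ (F : ℂ → ℂ) (A : Set ℂ), IsOpen A → DifferentiableOn ℂ F A → InjOn F A → F '' A = HP →
    ∀ ξ ∈ A, ∀ k ∉ A, 1 / (4 * ‖ξ - k‖ ^ 2) ≤ rX F ξ) ∧
  (∀ (g : ℂ → ℂ) (w : ℂ) (r : ℝ), 0 < r → DifferentiableOn ℂ g (Metric.ball w r) →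
    InjOn g (Metric.ball w r) → Metric.ball (g w) (r * ‖deriv g w‖ / 4) ⊆ g '' Metric.ball w r) ∧
  (∀ (g : ℂ → ℂ) (w : ℂ) (r : ℝ), 0 < r → DifferentiableOn ℂ g (Metric.ball w r) →
    InjOn g (Metric.ball w r) → ∀ z ∈ Metric.ball w r,
      ‖deriv g w‖ * ‖z - w‖ / (1 + ‖z - w‖ / r) ^ 2 ≤ ‖g z - g w‖ ∧
      ‖g z - g w‖ ≤ ‖deriv g w‖ * ‖z - w‖ / (1 - ‖z - w‖ / r) ^ 2)

/-- SH3 (hyperbolic area seen from a point of the shell).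

Proof. `m₀` from SH2, `W = ball m₀ (t/5) ⊆ ball c r ⊆ A`.  For `ξ ∈ W`: `(x,ξ) ∈ ZZ` (limit points are not in `ball c r`).  By SB2 there is `k ∈ LS` with `|z-k| ≤ (2S+2)t`, so `|ξ-k| ≤ |ξ-m₀| + |m₀-z| + |z-k| ≤ (2S+4)t` and `rX F ξ ≥ 1/(4(2S+4)²t²)` (KQ (2), `k ∉ A`).  `|W| = πt²/25`; the integral is at least
`π/(100 (2S+4)²) ≥ 1/(32 · 4 (S+2)²)`.
Hypotheses: hSB2 hSH2 hKQ. -/
def StSH3 : Prop := ∀ (Γ : Type) [Group Γ] (ρ σ : Γ →* SL) (A B : Set ℂ) (F : ℂ → ℂ), KD ρ A B →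
  CF ρ A F σ → ∀ S : ℝ, 0 ≤ S → ∀ x ∈ up, sb A B x ≤ S →
    (∃ (c : ℂ) (r : ℝ), 0 < r ∧ ‖x.1 - c‖ ^ 2 + x.2 ^ 2 < r ^ 2 ∧ Metric.ball c r ⊆ A) →
    ENNReal.ofReal (1 / (128 * (S + 2) ^ 2)) ≤
      ∫⁻ ξ in {ξ : ℂ | (x, ξ) ∈ ZZ A B S}, ENNReal.ofReal (rX F ξ)

/-- SH4 (the fibres over `ξ` have bounded volume).

Proof. `δ = dist(ξ, LS) > 0` attained at `k₁ ∈ LS` (closed, nonempty, SB1; `ξ ∈ A` open).  Let `(x,ξ) ∈ ZZ`.  `1 ≤ 4t pp x ξ = 4t²/(|z-ξ|²+t²)`: `|z-ξ|² + t² ≤ 4t²`, so `|z-ξ| ≤ 2t`.  `pp ≤ 1/t` (POI (5)): `1 ≤ 4δ²/t²`, `t ≤ 2δ`.  `ball ξ δ` is disjoint from `LS`, so `(δ²-|z-ξ|²-t²)/(2δt) ≤ sb x ≤ S` (SB0, SB1), `δ² ≤ 2Sδt + 4t²`, hence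
`t ≥ δ/(2S+3)` (otherwise `2Sδt+4t² < δ²(4S²+6S+4)/(2S+3)² < δ²`).  Volume (VOL (1)) at most `∫_(δ/(2S+3))^(2δ) π (2t)² dt/t³ = 4π log (2(2S+3))`.
Hypotheses: hVOL hPOI hSB0 hSB1. -/
def StSH4 : Prop := ∀ (Γ : Type) [Group Γ] (ρ : Γ →* SL) (A B : Set ℂ), KD ρ A B →
  ∀ S : ℝ, 0 ≤ S → ∀ ξ ∈ A,
    vol {x : Pt | (x, ξ) ∈ ZZ A B S} ≤ ENNReal.ofReal (4 * Real.pi * Real.log (4 * S + 6))

/-- SH5 (hyperbolic area is an invariant measure).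

Proof. `F (mb g ξ) = mb (σ γ) (F ξ)`, `σ γ` real of determinant one: `Im (mb σ w) = Im w/|c'w+d'|²`, `(mb σ)' w = (c'w+d')⁻²`, `(mb g)' ξ = (cξ+d)⁻²`; so `F'(gξ)(cξ+d)⁻² = (c'w+d')⁻² F'(ξ)` with `w = F ξ`, and `rX F (gξ) = rX F ξ |cξ+d|⁴`.  Measure preserving as in ACU (3): `∫ f dμ = ∫ 1_A f rX`, CHV (1).  σ-finite: density finite (locally bounded).
Hypotheses: hCHV. -/
def StSH5 : Prop := ∀ (Γ : Type) [Group Γ] (ρ σ : Γ →* SL) (A B : Set ℂ) (F : ℂ → ℂ), KD ρ A B →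
  CF ρ A F σ →
    (∀ γ : Γ, ∀ ξ ∈ A, rX F (mb (ρ γ) ξ) = rX F ξ * ‖ρ γ 1 0 * ξ + ρ γ 1 1‖ ^ 4) ∧
    ActOn (ab ρ) A (((volume : Measure ℂ).restrict A).withDensity (fun ξ => ENNReal.ofReal (rX F ξ))) ∧
    SigmaFinite (((volume : Measure ℂ).restrict A).withDensity (fun ξ => ENNReal.ofReal (rX F ξ)))

/-- SH6 (volume of the half shell).

Proof. SW0 for the actions on `up` (ACU) and on `A` with the measure of SH5, `h x ξ = 1_ZZ (x,ξ)` (invariant by SH1 for `γ` and `γ⁻¹`): `∫_(x∈D) μ_A{ξ | (x,ξ) ∈ ZZ} = ∫_(ξ∈DA) vol{x | (x,ξ) ∈ ZZ} dμ_A ≤ 4π log(4S+6) ∫_DA rX` (SH4).  The left side is at least `(1/(128(S+2)²))` times the volume of the set (SH3).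
The set on the left is measurable: `{x | ∃ c r, ..}` is open.
Hypotheses: hSW0 hACU hSH1 hSH3 hSH4 hSH5 hSB4. -/
def StSH6 : Prop := ∀ (Γ : Type) [Group Γ] (ρ σ : Γ →* SL) (A B : Set ℂ) (F : ℂ → ℂ), KD ρ A B →
  CF ρ A F σ → ∀ (D : Set Pt) (DA : Set ℂ), FDOn (au ρ) up D → FDOn (ab ρ) A DA → ∀ S : ℝ, 0 ≤ S →
    ENNReal.ofReal (1 / (128 * (S + 2) ^ 2)) *
      vol (D ∩ {x : Pt | x ∈ up ∧ sb A B x ≤ S ∧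
        ∃ (c : ℂ) (r : ℝ), 0 < r ∧ ‖x.1 - c‖ ^ 2 + x.2 ^ 2 < r ^ 2 ∧ Metric.ball c r ⊆ A}) ≤
    ENNReal.ofReal (4 * Real.pi * Real.log (4 * S + 6)) * ∫⁻ ξ in DA, ENNReal.ofReal (rX F ξ)

/-- CAN (Canary's bound: the volume of the core).

Proof. Shell: `vol (D ∩ {0 < sb ≤ S}) ≤ C₁(S) a₀` by SB7, SH6 for `(A,F)` and for `(B,F')` (`KD ρ B A` by ACU; `sb B A = sb A B`, `LS B A = LS A B`).  Let `φ x = max 0 (1 - max 0 (sb x))` on `up`, `0` elsewhere: measurable (SB4), invariant (SB3), `φ = 1` where `sb ≤ 0`, `φ = 0` where `sb ≥ 1`; `∫_D φ² ≤ vol (D ∩ {sb ≤ 1}) < ∞` (SB6, SW1 (1) with `ψ = 1_K`,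
`f = 1`: `vol (D ∩ ⋃ γ⁻¹K) ≤ vol K`).  QA.SCH: `2(VV - al s) ∫_D φ² ≤ ∫_D ∫ kk (φx-φy)²`.  If `kk x y ≠ 0` and `φ x ≠ φ y` then `x` or `y` is in `Sh = {0 < sb ≤ 2}`... : not both `sb ≤ 0`; say `φ x < φ y`; then `φ y > 0`, `sb y < 1`, `φ x < 1`, `sb x > 0`, and `sb x ≤ 4·1+2 = 6` (SB4 (2)).  So `x` (the one with the smaller value) lies in `Sh₆ = {0 < sb ≤ 6}`, and
`kk (φx-φy)² ≤ kk (1_(Sh₆) x + 1_(Sh₆) y)`; `∫_D ∫ kk 1_(Sh₆)(x) = VV vol (D ∩ Sh₆)`, the other term is the same by SW0 (`kk` invariant and symmetric).  So `2(VV - al s) vol (D ∩ {sb ≤ 0}) ≤ 2 VV C₁(6) a₀`, and `VV - al s ≥ (2-s)(VV - al 1)` (ALP (6)).  Add the shell up to `S`.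
Hypotheses: hCHI hVOL hKRN hALP hSW0 hSW1 hACU hSCH hSB1 hSB3 hSB4 hSB6 hSB7 hSH6. -/
def StCAN : Prop := ∀ (S a₀ : ℝ), 0 ≤ S → 0 ≤ a₀ → ∃ C : ℝ, 0 < C ∧
  ∀ (Γ : Type) [Group Γ] (ρ σ τ : Γ →* SL) (A B : Set ℂ) (F F' : ℂ → ℂ), KD ρ A B →
    CF ρ A F σ → CF ρ B F' τ →
    ∀ (D : Set Pt) (DA DB : Set ℂ), FDOn (au ρ) up D → FDOn (ab ρ) A DA → FDOn (ab ρ) B DB →
      ∫⁻ ξ in DA, ENNReal.ofReal (rX F ξ) ≤ ENNReal.ofReal a₀ →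
      ∫⁻ ξ in DB, ENNReal.ofReal (rX F' ξ) ≤ ENNReal.ofReal a₀ →
      ∀ s ∈ Icc (1 : ℝ) 2, Summable (fun γ : Γ => hs (ρ γ) ^ (-s)) →
        ENNReal.ofReal (2 - s) * vol (D ∩ {x : Pt | x ∈ up ∧ sb A B x ≤ S}) ≤ ENNReal.ofReal C

/-- PK1 (eigenvalue of the kernel `ch^(-s)` on `t^σ`).

Proof. Invariance (VOL (2), CHI (2)) as in ALP (2): the integral equals `be · (ga g x).2^σ` with `be = ∫ ch oo y^(-s) y.2^σ dvol(y)`.  `ch oo (z,t) = (|z|²+t²+1)/(2t)`; `∫_ℂ (|z|²+1+t²)^(-s) dz = (π/(s-1)) (1+t²)^(1-s)` (polar coordinates, `s > 1`), so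
`be = 2^s (π/(s-1)) ∫_0^∞ t^(s+σ-3) (1+t²)^(1-s) dt ≤ 2^s (π/(s-1)) [∫_0^1 t^(s+σ-3) dt + ∫_1^∞ t^(σ-s-1) dt] = 2^s (π/(s-1)) · (2s-2)/((s+σ-2)(s-σ)) ≤ 8π/((s+σ-2)(s-σ)) ≤ 8π/(s-σ)²` (`1 ≤ σ < s ≤ 2`, `s+σ-2 ≥ s-σ`).
Hypotheses: hACT hCHI hVOL. -/
def StPK1 : Prop := ∀ s σ : ℝ, 1 ≤ σ → σ < s → s ≤ 2 → ∃ be : ℝ, 0 ≤ be ∧
  be ≤ 8 * Real.pi / (s - σ) ^ 2 ∧ ∀ g : SL, ∀ x ∈ up,
    ∫⁻ y, ENNReal.ofReal (ch x y ^ (-s) * (ga g y).2 ^ σ) ∂vol = ENNReal.ofReal (be * (ga g x).2 ^ σ)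

/-- PK2 (Schur test for `ch^(-s)`).

Proof. As in EIS choose `ξ₀ ∈ A` and `Fs x = ∑' γ, ofReal (pp (au ρ γ x) ξ₀ ^ σ)`: finite and positive on `up`, invariant, measurable (proof of EIS, exponent `σ`, `Summable hs^(-σ)`), and by PK1 (with `g = gi ξ₀ * ρ γ`, POI (2), ACT) `∫ ch x y^(-s) Fs y dy = be Fs x`.  AM-GM: `2φxφy ≤ φx² Fs y/Fs x + φy² Fs x/Fs y`; the second term equals the first after
SW0 (invariant kernel).  So the left side is at most `be ∫_D φ²`.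
Hypotheses: hACT hCHI hPOI hCHV hSW0 hACU hPD1 hPK1. -/
def StPK2 : Prop := ∀ (Γ : Type) [Group Γ] (ρ : Γ →* SL) (A B : Set ℂ), KD ρ A B →
  ∀ s σ : ℝ, 1 ≤ σ → σ < s → s ≤ 2 → Summable (fun γ : Γ => hs (ρ γ) ^ (-σ)) →
  ∀ D : Set Pt, FDOn (au ρ) up D → ∀ φ : Pt → ℝ≥0∞, Measurable φ →
    (∀ γ : Γ, ∀ x ∈ up, φ (au ρ γ x) = φ x) →
    ∫⁻ x in D, ∫⁻ y, ENNReal.ofReal (ch x y ^ (-s)) * φ x * φ y ∂vol ∂vol ≤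
      ENNReal.ofReal (8 * Real.pi / (s - σ) ^ 2) * ∫⁻ x in D, φ x ^ 2 ∂vol

/-- PK3 (pointwise bound of the Poincaré series at points with embedded balls).

Proof. `Bx = {z ∈ up | ch x z ≤ 1+ε}`, `By` likewise; `v = vol Bx = vol By > 0` depends only on `ε` (VOL (2), CHI (2)).  `φ` = indicator function of the union of all translates of `Bx ∪ By` (measurable, invariant; `Γ` countable by ACU).  `∫_D φ² ≤ vol Bx + vol By = 2v` (SW1: `φ ≤ ∑_γ (1_Bx + 1_By)(γ·)`, `∫_D ∑_γ ψ(γ·) = ∫ψ`).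
Left side of PK2: `≥ ∫_D ∫ ch x' y'^(-s) φ₁(x') φ₂(y')` with `φ₁, φ₂` the indicators of the translates of `Bx`, of `By`; by embeddedness `φ₁(x') = ∑_γ 1_Bx(γx')` (at most one term: if `γx', δx' ∈ Bx`, `δγ⁻¹ ≠ 1` maps a point of `Bx` into `Bx`), same for `φ₂`; SW1 (unfold `φ₁`): `= ∫_Bx ∫ ch x'y'^(-s) φ₂ y' = ∑_γ ∫_Bx ∫_By ch(x', γy')^(-s)`, and
`ch x' (γy') ≤ 2 ch x' x · ch x (γy') ≤ 4 ch x'x ch x (γy) ch (γy)(γy') ≤ 16 ch x (γy)` (CHI (3), `1+ε ≤ 2`), so each term is at least `v² 16^(-s) ch x (γy)^(-s) ≥ v²/256 · ..`.  Hence `PS ρ s x y ≤ (256/v²)(8π/(s-σ)²)(2v)`.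
Hypotheses: hACT hCHI hVOL hSW1 hACU hPD3 hPK2. -/
def StPK3 : Prop := ∀ ε : ℝ, 0 < ε → ε ≤ 1 → ∃ C : ℝ, 0 < C ∧
  ∀ (Γ : Type) [Group Γ] (ρ : Γ →* SL) (A B : Set ℂ), KD ρ A B →
  ∀ s σ : ℝ, 1 ≤ σ → σ < s → s ≤ 2 → Summable (fun γ : Γ => hs (ρ γ) ^ (-σ)) →
  ∀ x ∈ up, ∀ y ∈ up,
    (∀ γ : Γ, γ ≠ 1 → ∀ z ∈ up, ch x z ≤ 1 + ε → 1 + ε < ch x (au ρ γ z)) →
    (∀ γ : Γ, γ ≠ 1 → ∀ z ∈ up, ch y z ≤ 1 + ε → 1 + ε < ch y (au ρ γ z)) →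
    PS ρ s x y ≤ ENNReal.ofReal (C / (s - σ) ^ 2)

end Pool.Agent.Helper85.QT
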