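import Pool.Agent.Helper85.QT.Defs2

/-!
# Project QT, statements 2: flat coordinates, conformal maps of strips, the band (sections 5, 7)

Every module `X` proves `theorem hX (h1 : StA) ... : StX`, the statements listed as hypotheses may be used.  Complete proofs in the docstrings.
`τ = 2πi/lam` (so `lam τ = 2πi`), `Im τ = 2π Re lam/|lam|²`.  `fd lam ξ η = |log(ξ/η)|/|lam|` (principal logarithm).
-/

set_option autoImplicit false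

open MeasureTheory Matrix Set Topology
open scoped ENNReal ComplexConjugate

namespace Pool.Agent.Helper85.QT

open Pool.Agent.Helper86.QA
open Pool.Agent.Helper35.PM (hs)

/-- ANA (the element `α`).

Proof. `c = b = 0` for `ρ α`, `a d = 1`, `a = e^lam d`; so `ρ α^n` is diagonal with `a_n = e^(n lam) d_n`, `a_n d_n = 1`, hence `|d_n|² |e^(n lam)| = 1`.  (1) `mb (ρ α^n) ξ = (a_n/d_n) ξ`, denominator `d_n ≠ 0`.  (2) `ga (ρ α^n) x = (a_n conj d_n z/|d_n|², t/|d_n|²) = (e^(n lam) z, |e^(n lam)| t)`.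
(3) `0 ∈ LS`: if `0 ∈ A` (or `B`) then all `α^n`, `n ∈ ℕ`, fix `0`: by PD2 (last set, `K = K' = {0}`) only finitely many elements, `α^m = α^n` with `m < n`, so `α = 1` (`tf`), but `ρ α ≠ 1` as `|e^lam| > 1`.  (4) for `ξ ∈ LS`: SB3 (2) with (1).
(5) if `LS = {0}` then `ℂ \ {0} = A ∪ B` would be connected (`isPreconnected_compl_singleton_of_one_lt_rank`), `A`, `B` open disjoint nonempty: `0 ∉ A`, `0 ∉ B`, contradiction.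
Hypotheses: hACT hPD2 hSB3. -/
def StANA : Prop := ∀ (Γ : Type) [Group Γ] (ρ : Γ →* SL) (A B : Set ℂ) (α : Γ) (lam : ℂ) (M : ℝ) (G : ℂ → ℂ) (m : ℝ)
  (φ : ℂ → ℂ) (C3 : ℝ), Ann ρ A B α lam M G m φ C3 →
  (∀ (n : ℤ) (ξ : ℂ), (ρ (α ^ n)) 1 0 * ξ + (ρ (α ^ n)) 1 1 ≠ 0 ∧ mb (ρ (α ^ n)) ξ = Complex.exp (n * lam) * ξ) ∧
  (∀ (n : ℤ), ∀ x ∈ up, ga (ρ (α ^ n)) x = (Complex.exp (n * lam) * x.1, ‖Complex.exp (n * lam)‖ * x.2)) ∧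
  0 ∈ LS A B ∧ (∀ (n : ℤ), ∀ ξ ∈ LS A B, Complex.exp (n * lam) * ξ ∈ LS A B) ∧
  (∃ ξ ∈ LS A B, ξ ≠ 0)

/-- FDC (flat distance).

Proof. `log(ξ/η)` and `log(η/ξ)` have the same modulus (`arg` of the inverse is `-arg`, or both are `π`).  Triangle inequality: `exp` of `log(ξ/η) + log(η/ζ)` is `ξ/ζ`, so it differs from `log(ξ/ζ)` by `2πik`, real parts equal, and the principal value has the smallest modulus of the imaginary part.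
(3) `exp(lam w)/exp(lam w') = exp(lam(w-w'))`, `log` of it is `lam(w-w') + 2πik = lam(w - w' + kτ)` for some `k`, and it is of minimal modulus among these numbers.  (4) if `|ξ/η - 1| ≤ ε ≤ 1/2` then `|log(ξ/η)| ≤ 2ε`.  (5) measurability. -/
def StFDC : Prop := ∀ lam : ℂ, lam ≠ 0 →
  (∀ ξ η : ℂ, fd lam ξ η = fd lam η ξ ∧ 0 ≤ fd lam ξ η ∧ fd lam ξ ξ = 0) ∧
  (∀ ξ η ζ : ℂ, ξ ≠ 0 → η ≠ 0 → ζ ≠ 0 → fd lam ξ ζ ≤ fd lam ξ η + fd lam η ζ) ∧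
  (∀ w w' : ℂ, (∀ k : ℤ, fd lam (Complex.exp (lam * w)) (Complex.exp (lam * w')) ≤ ‖w - w' + k * (2 * Real.pi * Complex.I / lam)‖) ∧
    ∃ k : ℤ, fd lam (Complex.exp (lam * w)) (Complex.exp (lam * w')) = ‖w - w' + k * (2 * Real.pi * Complex.I / lam)‖) ∧
  (∀ (ξ η : ℂ) (ε : ℝ), ξ ≠ 0 → η ≠ 0 → ε ≤ 1 / 2 → ‖ξ / η - 1‖ ≤ ε → fd lam ξ η ≤ 2 * ε / ‖lam‖) ∧
  (∀ η : ℂ, Measurable (fun ξ => fd lam ξ η))

/-- TTX (flat height and radial projection).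

Proof. `cR x = √(|z|²+t²)/t ≥ 1`, `TT = 1/(|lam| cR)`.  (2) (3): `xp lam T ξ = (ξ√(1-s²), |ξ|s)`, `s = T|lam|`: `|z|²+t² = |ξ|²`.  (4) for `x.1 ≠ 0`: `|rd x| = √(|z|²+t²)`, `s = TT|lam| = t/√(|z|²+t²)`, `√(1-s²) = |z|/√(..)`; `s < 1`.  (5) from the formula of `ga (ρ α^n)`: stated for the map `(cz, |c|t)`.
(6) `cR y ≤ ch y (0,r)` for every `r > 0` with equality for `r = √(NN y)` (`(|z|²+t²+r²)/(2tr)`, AM-GM); with `r = √(NN x)`: `cR y ≤ ch y (0,r) ≤ ch x (0,r) (c + √(c²-1)) = cR x (c + √(c²-1))`, `c = ch x y` (TRI: `√(ch²-1) ≤ ch`), and `11/10 + √(21/100) ≤ 2`.  (7) `|rd x - x.1| = √(|z|²+t²) - |z| ≤ t` (if `x.1 ≠ 0`), `t = |lam| TT |rd x|`.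
Hypotheses: hTRI. -/
def StTTX : Prop := ∀ lam : ℂ, lam ≠ 0 →
  (∀ x ∈ up, 0 < TT lam x ∧ TT lam x * ‖lam‖ ≤ 1 ∧ (TT lam x * ‖lam‖ < 1 ↔ x.1 ≠ 0)) ∧
  (∀ (T : ℝ) (ξ : ℂ), 0 < T → T * ‖lam‖ < 1 → ξ ≠ 0 →
    xp lam T ξ ∈ up ∧ TT lam (xp lam T ξ) = T ∧ rd (xp lam T ξ) = ξ) ∧
  (∀ x ∈ up, x.1 ≠ 0 → rd x ≠ 0 ∧ xp lam (TT lam x) (rd x) = x ∧ ‖rd x - x.1‖ ≤ x.2 ∧ x.2 = ‖lam‖ * TT lam x * ‖rd x‖) ∧
  (∀ (c : ℂ), c ≠ 0 → ∀ x ∈ up, TT lam (c * x.1, ‖c‖ * x.2) = TT lam x ∧ rd (c * x.1, ‖c‖ * x.2) = c * rd x) ∧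
  (∀ x ∈ up, ∀ y ∈ up, ch x y ≤ 11 / 10 → TT lam x ≤ 2 * TT lam y) ∧
  ContinuousOn (TT lam) up ∧ Measurable (TT lam)

/-- TRI (the exact triangle inequality).

Proof. Move `y` to `oo` (ACT, CHI: `g = (gx y)⁻¹`).  `Xm oo = 1`; `X = Xm x = a 1 + X₀`, `Z = Xm z = b 1 + Z₀` with `X₀, Z₀` Hermitian of trace zero, `a = ch oo x` (`2 ch oo x = tr X`), `X₀ = [[p,q],[conj q,-p]]` with `p²+|q|² = a²-1` (determinant one), same for `Z₀`; `X⁻¹ = a 1 - X₀`.  `2 ch x z = tr (X⁻¹ Z) = 2ab - tr(X₀Z₀)`, and Cauchy-Schwarz.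
Hypotheses: hACT hCHI. -/
def StTRI : Prop := ∀ x ∈ up, ∀ y ∈ up, ∀ z ∈ up,
  ch x z ≤ ch x y * ch y z + Real.sqrt (ch x y ^ 2 - 1) * Real.sqrt (ch y z ^ 2 - 1)

/-- VIS (visual density in flat coordinates).

Proof. By scaling and rotation (`|ξ| pp x ξ` is invariant under `(cz,|c|t)`, `cξ`) let `rd x = 1`: `x = (q, s)`, `s = T|lam|`, `q = √(1-s²)`.  `ξ = e^(v+iθ)`, `|θ| ≤ π`, `|lam|² d² = v²+θ²`.  `|ξ| pp x ξ = e^v s/(e^(2v) + 1 - 2q e^v cos θ) = s/(2(cosh v - q cos θ))`.  *Upper bound*: `cosh v - q cos θ ≥ v²/2 + (1 - q cos θ)` and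
`1 - q cos θ ≥ (s² + θ²/π²)/4`: if `q ≥ 1/2` it is `(1-q) + q(1-cos θ) ≥ s²/2 + (1/2)(2θ²/π²)`, if `q < 1/2` it is `≥ 1/2`.  So `|lam||ξ| pp ≤ |lam| s · 2π²/(s²+v²+θ²) = 2π² T/(T²+d²)`, and `2π² < 20`.  *Lower bound* (`v²+θ² ≤ 1`): `cosh v ≤ 1 + v²`, `1 - q cos θ ≤ (1-q) + θ²/2 ≤ s² + θ²`, so `|lam||ξ| pp ≥ |lam|s/(2(s²+v²+θ²)) = T/(2(T²+d²))`.
Hypotheses: hTTX. -/
def StVIS : Prop := ∀ lam : ℂ, lam ≠ 0 → ∀ x ∈ up, x.1 ≠ 0 → ∀ ξ : ℂ, ξ ≠ 0 →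
  ‖lam‖ * ‖ξ‖ * pp x ξ ≤ 20 * TT lam x / (TT lam x ^ 2 + fd lam (rd x) ξ ^ 2) ∧
  (‖lam‖ * fd lam (rd x) ξ ≤ 1 → TT lam x / (2 * (TT lam x ^ 2 + fd lam (rd x) ξ ^ 2)) ≤ ‖lam‖ * ‖ξ‖ * pp x ξ)

/-- FLT (flat area).

Proof. Change of variables `η = p exp(lam ζ)`: `exp` is injective on the strip `{-π < Im (lam ζ) < π}` with image `ℂ` minus a half line (null set), the real Jacobian of `ζ ↦ p exp(lam ζ)` is `|lam|²|η|²`, and `log(η/p)/lam = ζ` there.  So the left side is the integral of `f` over the strip. -/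
def StFLT : Prop := ∀ (lam p : ℂ), lam ≠ 0 → p ≠ 0 → ∀ f : ℂ → ℝ≥0∞, Measurable f →
  ∫⁻ η, f (Complex.log (η / p) / lam) * ENNReal.ofReal (1 / (‖lam‖ ^ 2 * ‖η‖ ^ 2)) ≤ ∫⁻ ζ, f ζ

/-- NEA (near a point of the core there are limit points, in flat coordinates; and conversely).

Proof. (1) SB2: `k ∈ LS` with `|x.1 - k| ≤ (2S+2)t`.  `x.1 ≠ 0` because `TT|lam| < 1`.  `|rd x - k| ≤ (2S+3)t = (2S+3)|lam|TT|rd x|` (TTX (3)), so `|k/rd x - 1| ≤ (2S+3)|lam|TT ≤ 1/2`, `k ≠ 0`, FDC (4).  (2) SB1 (last claim): `sb x ≤ |x.1 - ξ|/x.2 = (1-√(1-s²))/s ≤ s ≤ 1`, `s = T|lam|`.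
Hypotheses: hSB1 hSB2 hFDC hTTX. -/
def StNEA : Prop := ∀ (Γ : Type) [Group Γ] (ρ : Γ →* SL) (A B : Set ℂ), KD ρ A B → ∀ lam : ℂ, lam ≠ 0 →
  (∀ S : ℝ, 0 ≤ S → ∀ x ∈ up, sb A B x ≤ S → 2 * (2 * S + 3) * ‖lam‖ * TT lam x ≤ 1 →
    ∃ ξ ∈ LS A B, ξ ≠ 0 ∧ fd lam (rd x) ξ ≤ 2 * (2 * S + 3) * TT lam x) ∧
  (∀ ξ ∈ LS A B, ξ ≠ 0 → ∀ T : ℝ, 0 < T → T * ‖lam‖ < 1 → sb A B (xp lam T ξ) ≤ 1)

/-- HN1 (distortion of conformal maps of strips which commute with the unit translation).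

Proof. (1) KQ (4) on `ball w (3/2) ⊆ Sm m` at `z = w+1`: `1 = |f(w+1)-f w| ≥ |f' w|/(1+2/3)²`, `|f' w| ≤ 25/9`.  (2) KQ (4) (second inequality) on `ball w r`, `r = 2` : `1 ≤ |f' w|/(1-1/2)²`.  (3) KQ (3): `ball (f w) (r|f' w|/4) ⊆ f '' ball w r`, `|f' w| ≥ (1-1/r)² ≥ 1/4`.
Hypotheses: hKQ. -/
def StHN1 : Prop := ∀ (m : ℝ) (f : ℂ → ℂ), HN m f →
  (∀ w : ℂ, 3 / 2 ≤ dd m w → ‖deriv f w‖ ≤ 3) ∧
  (∀ w : ℂ, 2 ≤ dd m w → 1 / 4 ≤ ‖deriv f w‖) ∧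
  (∀ (w : ℂ) (r : ℝ), 2 ≤ r → r ≤ dd m w → Metric.ball (f w) (r / 16) ⊆ f '' Metric.ball w r)

/-- HN2 (exponential decay of `f' - 1`).

Proof. `H = f' - 1` is holomorphic on the strip, 1-periodic, `|H| ≤ 4` where `dd ≥ 3/2` (HN1), and `∫_0^1 H(x+iy) dx = f(iy+1) - f(iy) - 1 = 0`.  Fourier: for `n ∈ ℤ`, `a_n = ∫_0^1 H(x+iy) e^(-2πin(x+iy)) dx` does not depend on `y` (rectangle theorem, periodicity), `a_0 = 0`, so for `n > 0` (height `3/2`) `|a_n| ≤ 4 e^(2πn·(3/2))`, for `n < 0` (height `m-3/2`) `|a_n| ≤ 4 e^(-2π|n|(m-3/2))`;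
`H(x+iy) = ∑ a_n e^(2πin(x+iy))` (`hasSum_fourier_series_of_summable`), so `|H(x+iy)| ≤ 4 ∑_(n≥1) (e^(-2πn(y-3/2)) + e^(-2πn(m-3/2-y))) ≤ C e^(-2π dd)` for `dd ≥ 2`.  (Any rate is enough: C e^(-c dd) with universal c > 0, as in the statement.  Other proof: for real θ, `u = Re(e^(iθ)H)` has mean zero on every horizontal period so it has a zero on each;
Harnack on unit balls gives `sup |u|` on the next smaller strip at most `(1-c)` times the previous one.)  (2) `κ = f(im/2) - im/2`; `f(w) - w` is 1-periodic; join `w` to `Re w + im/2` vertically and then horizontally (distance at most 1/2 after a translation): `|f w - w - κ| ≤ ∫ |H| ≤ ∫_2^∞ 2Ce^(-cy) dy + C ≤ C'`; for `Im w = m/2` only the horizontal part.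
Hypotheses: hHN1. -/
def StHN2 : Prop := ∃ C c : ℝ, 0 < C ∧ 0 < c ∧ ∀ (m : ℝ) (f : ℂ → ℂ), 4 ≤ m → HN m f →
  (∀ w : ℂ, 2 ≤ dd m w → ‖deriv f w - 1‖ ≤ C * Real.exp (-c * dd m w)) ∧
  ∃ κ : ℂ, (∀ w : ℂ, 2 ≤ dd m w → ‖f w - w - κ‖ ≤ C) ∧
    (∀ w : ℂ, w.im = m / 2 → ‖f w - w - κ‖ ≤ C * Real.exp (-c * m))

/-- HN3 (moduli).

Proof. (1) `R = {0 < Re w < 1} ∩ Sm m`.  `f` injective holomorphic: `|f(R)| = ∫_R |f'|² = ∫_0^m ∫_0^1 |f'|² dx dy ≥ ∫_0^m |∫_0^1 f' dx|² dy = m` (change of variables `lintegral_image_eq_lintegral_abs_det_fderiv_mul`, Cauchy-Schwarz, `∫_0^1 f'(x+iy) dx = f(iy+1) - f(iy) = 1`; write the integral over compact subrectangles or use monotone limits if integrability is needed).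
(2) if `P ⊆ Sm M` is measurable and the sets `P + n`, `n ∈ ℤ`, are pairwise disjoint then `|P| = ∑_n |P ∩ {n ≤ Re < n+1}| = ∑ |(P - n) ∩ {0 ≤ Re < 1}| ≤ M`; apply to `P = f(R)`: `f(w)+n = f(w')+n'` gives `w+n = w'+n'` by injectivity.
(3) torus: `P ⊆ ℂ` measurable with pairwise disjoint translates by `n + kτ`, `Im τ > 0`: `|P| ≤ Im τ` (fundamental domain `{x + sτ : 0 ≤ x, s < 1}` of area `Im τ`: same computation; or Mathlib `ZSpan`/`IsAddFundamentalDomain`). -/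
def StHN3 : Prop :=
  (∀ (m : ℝ) (f : ℂ → ℂ), 0 < m → HN m f →
    ENNReal.ofReal m ≤ volume (f '' {w : ℂ | w ∈ Sm m ∧ 0 < w.re ∧ w.re < 1})) ∧
  (∀ (m M : ℝ) (f : ℂ → ℂ), 0 < m → HN m f → MapsTo f (Sm m) (Sm M) → m ≤ M) ∧
  (∀ (τ : ℂ) (P : Set ℂ), 0 < τ.im → MeasurableSet P →
    (∀ n k n' k' : ℤ, (n, k) ≠ (n', k') → Disjoint ((fun z : ℂ => z + (n + k * τ)) '' P) ((fun z : ℂ => z + (n' + k' * τ)) '' P)) →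
    volume P ≤ ENNReal.ofReal τ.im)

/-- ANB (the maps of an annulus).

Proof. `G` is injective on `Sm M` even modulo `ℤ + τℤ`: if `G w = G w' + n + kτ` then `exp(lam G w) = exp(lam G(w'+n))`, so `w = w'+n` (Gb; `w'+n ∈ Sm M`, `G(w'+n) = G w' + n` by induction from G1, also for negative `n`) and then `kτ = 0`.  (1) `HN M G`; `HN m φ`; `HN m (G ∘ φ)`.
(2) `m ≤ M`: HN3 (2) for `φ`.  (3) HN3 (1) and (3) for `f = G ∘ φ`, `P = f(R)`, `R = {0<Re<1} ∩ Sm m`: `m ≤ |P| ≤ Im τ` (`P + n + kτ` are disjoint by the injectivity modulo the lattice; `P` is open as the injective holomorphic image of an open set, or measurable by `MeasurableSet.image_of_continuousOn_injOn`), same for `G`.  `Im τ = 2π Re lam/|lam|² ≤ 2π/|lam|`.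
(4) `EE lam G φ a b ⊆ A`, open: image of an open set under the injective holomorphic map `ff` (open mapping theorem: a nonconstant holomorphic map on a connected (convex) open set is open; `AnalyticOnNhd.is_constant_or_isOpen`; injective so not constant).
Hypotheses: hHN3. -/
def StANB : Prop := ∀ (Γ : Type) [Group Γ] (ρ : Γ →* SL) (A B : Set ℂ) (α : Γ) (lam : ℂ) (M : ℝ) (G : ℂ → ℂ) (m : ℝ)
  (φ : ℂ → ℂ) (C3 : ℝ), Ann ρ A B α lam M G m φ C3 →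
  lam ≠ 0 ∧ HN M G ∧ HN m φ ∧ HN m (fun w => G (φ w)) ∧ m ≤ M ∧ M ≤ m + C3 ∧
  M ≤ (2 * Real.pi * Complex.I / lam).im ∧ ‖lam‖ * m ≤ 2 * Real.pi ∧ ‖lam‖ * M ≤ 2 * Real.pi ∧
  (2 * Real.pi * Complex.I / lam).im = 2 * Real.pi * lam.re / ‖lam‖ ^ 2 ∧
  (∀ w ∈ Sm M, ∀ w' ∈ Sm M, ∀ n k : ℤ, G w = G w' + n + k * (2 * Real.pi * Complex.I / lam) → w = w' + n ∧ k = 0) ∧
  DifferentiableOn ℂ (ff lam G φ) (Sm m) ∧ InjOn (ff lam G φ) (Sm m) ∧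
  (∀ w ∈ Sm m, ff lam G φ (w + 1) = Complex.exp lam * ff lam G φ w ∧
    deriv (ff lam G φ) w = lam * deriv (fun w => G (φ w)) w * ff lam G φ w ∧ deriv (ff lam G φ) w ≠ 0) ∧
  (∀ a b : ℝ, 0 ≤ a → b ≤ m → EE lam G φ a b ⊆ A ∧ IsOpen (EE lam G φ a b))

/-- CLA (every limit point is a limit of points of `A`).

Proof. Let `ξ ∈ LS` and suppose `ball ξ r` misses `A`.  `x_t = (ξ,t)`: `sb x_t ≤ |ξ-ξ|/t = 0` (SB1), so by SB6 (`S = 0`) some `γ x_t ∈ K`, `K` compact; `hv A` is continuous and positive on `up` (HME (3), (6)) and invariant (ACU), so `hv A x_t ≥ c > 0` for all `t > 0`.  But `hv A x_t ≤ (1/π) ∫_(|η-ξ|≥r) t²/|η-ξ|⁴ dη = t²/r² → 0`.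
(Or: HME (7): `aw A ξ < ∞` as `|ξ-η| ≥ r` on `A`.)
Hypotheses: hHME hACU hSB1 hSB6. -/
def StCLA : Prop := ∀ (Γ : Type) [Group Γ] (ρ : Γ →* SL) (A B : Set ℂ), KD ρ A B → LS A B ⊆ closure A

/-- LSD (the limit set is far from the middle of the annulus).

Proof. (1) Let `f = G` on `Sm M` (or `G ∘ φ` on `Sm m`), `w` with `r ≤ dd w`, `r ≥ 2`; `ξ ∈ LS`, `ξ ≠ 0`, `ξ = exp(lam η)`, and by FDC (3) we may choose `η` such that `fd lam (exp(lam f w)) ξ = |f w - η|`.  `ball (f w) (r/16) ⊆ f '' ball w r ⊆ f '' Sm` (HN1), and `exp(lam f ·) ∈ A` there, so `η` is not in this ball.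
(2) **Heights of the limit set.** `κ` from HN2 for `f = G ∘ φ`, `y₀ = Im κ + m/2`.  If `exp(lam ζ) ∈ LS` and `|Im ζ - y₀| < m/50`: `w = ζ - κ` has `|Im w - m/2| < m/50`, `dd w ≥ 12m/25 ≥ 2`, so `|f w - ζ| = |f w - w - κ| ≤ C < (12m/25)/16` for `m ≥ m₁`, contradiction to (1).  So for every `ζ` with `exp(lam ζ) ∈ LS` there is an integer `k`
with `y₀ + m/50 ≤ Im (ζ + kτ) ≤ y₀ + Im τ - m/50` (take `k` with `y₀ ≤ Im(ζ+kτ) < y₀ + Im τ` and use the statement for `ζ+kτ` and `ζ + (k-1)τ`).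
Hypotheses: hFDC hHN1 hHN2 hANB. -/
def StLSD : Prop := ∃ C m₁ : ℝ, 0 < C ∧ 4 ≤ m₁ ∧ ∀ (Γ : Type) [Group Γ] (ρ : Γ →* SL) (A B : Set ℂ) (α : Γ) (lam : ℂ) (M : ℝ)
  (G : ℂ → ℂ) (m : ℝ) (φ : ℂ → ℂ) (C3 : ℝ), Ann ρ A B α lam M G m φ C3 →
  (∀ (w : ℂ) (r : ℝ), 2 ≤ r → r ≤ dd M w → ∀ ξ ∈ LS A B, ξ ≠ 0 → r / 16 ≤ fd lam (Complex.exp (lam * G w)) ξ) ∧
  (∀ (w : ℂ) (r : ℝ), 2 ≤ r → r ≤ dd m w → ∀ ξ ∈ LS A B, ξ ≠ 0 → r / 16 ≤ fd lam (ff lam G φ w) ξ) ∧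
  (m₁ ≤ m → ∃ κ : ℂ, (∀ w : ℂ, 2 ≤ dd m w → ‖G (φ w) - w - κ‖ ≤ C) ∧
    (∀ w : ℂ, w.im = m / 2 → ‖G (φ w) - w - κ‖ ≤ 1 / 2) ∧
    ∀ ζ : ℂ, Complex.exp (lam * ζ) ∈ LS A B → ∃ k : ℤ,
      κ.im + m / 2 + m / 50 ≤ (ζ + k * (2 * Real.pi * Complex.I / lam)).im ∧
      (ζ + k * (2 * Real.pi * Complex.I / lam)).im ≤ κ.im + m / 2 + (2 * Real.pi * Complex.I / lam).im - m / 50)

/-- FUL (the annulus fills the cover up to bounded collars).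

Proof. HN2 for `φ`: `|φ w - w - κ| ≤ C` for `dd m w ≥ 2`.  At height `2`: `0 < Im φ`, so `Im κ > -2 - C`; at height `m-2`: `m - 2 + Im κ - C < M ≤ m + C3`, so `Im κ < C + 2 + C3`.  Let `v` with `C5 ≤ dd M v`, `w = v - κ`; `Im w ≥ C5 - C - 2 - C3`, `m - Im w ≥ m - M + C5 + Im κ... ≥ C5 - C3 - 2 - C` (as `m ≥ M - C3`).  With `r = 17 C + 2` and
`C5 = r + C + 2 + C3 + 1`: `r ≤ dd m w`, `|φ w - v| = |φ w - w - κ| ≤ C < r/16`, so `v ∈ φ '' ball w r` (HN1 (3)).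
Hypotheses: hHN1 hHN2 hANB. -/
def StFUL : Prop := ∀ C3 : ℝ, 0 ≤ C3 → ∃ C5 : ℝ, 2 ≤ C5 ∧ ∀ (Γ : Type) [Group Γ] (ρ : Γ →* SL) (A B : Set ℂ) (α : Γ) (lam : ℂ) (M : ℝ)
  (G : ℂ → ℂ) (m : ℝ) (φ : ℂ → ℂ), Ann ρ A B α lam M G m φ C3 → C5 ≤ m →
  ∀ v : ℂ, C5 ≤ dd M v → ∃ w ∈ Sm m, φ w = v

/-- GLS (points of small height are near the limit set).

Proof. Let `w ∈ Sm M`.  *Claim*: if `ball (G w) R ⊆ G '' Sm M`, `R > 1`, then `R ≤ 4 dd M w + 2`.  `h = G⁻¹` on this ball is holomorphic, injective, `h(ζ+1) = h ζ + 1`; KQ (4): `1 = |h(G w + 1) - w| ≤ |h'|/(1-1/R)²` at `G w`; KQ (3): `ball w (R|h'|/4) ⊆ Sm M` so `R(1-1/R)²/4 ≤ dd M w`, i.e. `(R-1)² ≤ 4R dd`, `R ≤ 4dd+2`.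
(Or by Schwarz-Pick, `R ≤ 1 + 2 dd M w`.)  Let `R₀` be the distance of `G w` to the complement of `G '' Sm M` (it is not all of `ℂ`, by the claim), attained at `ζ ∉ G '' Sm M` (open set), `R₀ ≤ 4dd+2`; `ζ = lim ζ_n`, `ζ_n ∈ G '' Sm M` (points of the open segment).  `exp(lam ζ) ∈ closure A`, so it is in `A ∪ LS` (`B` is open and disjoint from `A`).
If it is in `A` then `exp(lam ζ) = exp(lam G w₁)`, `ζ = G w₁ + kτ`, `k ≠ 0`; the open set `G '' Sm M + kτ` contains `ζ`, hence `ζ_n` for large `n`: `ζ_n = G w_n = G w_n' + kτ`, contradiction to ANB.  So `exp(lam ζ) ∈ LS`.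
Hypotheses: hKQ hANB. -/
def StGLS : Prop := ∀ (Γ : Type) [Group Γ] (ρ : Γ →* SL) (A B : Set ℂ) (α : Γ) (lam : ℂ) (M : ℝ)
  (G : ℂ → ℂ) (m : ℝ) (φ : ℂ → ℂ) (C3 : ℝ), Ann ρ A B α lam M G m φ C3 →
  ∀ w ∈ Sm M, ∃ ζ : ℂ, Complex.exp (lam * ζ) ∈ LS A B ∧ ‖G w - ζ‖ ≤ 4 * dd M w + 2

/-- BND (separated limit points are few).

Proof. `C` universal.  `T = 2c0`, `|lam| ≤ 2π/m`, so `T|lam| ≤ 1/2` for `m ≥ m₁ := 8πc0`.  For `ξ ∈ P` let `x_ξ = xp lam T ξ`; `TT lam x_ξ = 2c0` (TTX).  Let `ε' = ε'(c0,ε) ≤ min(ε, 1/10)` with `2(1+ε')² - 1 < 1 + 1/(4π²c0²)`.  *The balls* `B_ξ = {z ∈ up | ch x_ξ z ≤ 1+ε'}` *have disjoint orbits and are embedded*: for one ball this is EBal.  Let `z ∈ B_ξ`, `au ρ γ z ∈ B_η`, `ξ ≠ η`.  By TTX (5)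
`TT z ≥ c0`, `TT (au ρ γ z) ≥ c0`, i.e. (`au ρ γ z = x'`, `Tg ρ lam γ x' = TT z ≥ c0`) DTub gives `γ = α^n`.  `ch (au ρ γ x_ξ) x_η ≤ 2(1+ε')²-1` (TRI: `cosh(2r)`; `ch (γx_ξ)(γz) = ch x_ξ z`).  But `au ρ α^n x_ξ = xp lam T (e^(n lam) ξ)` (ANA) and for `x = xp T ξ'`, `x' = xp T η`, `ξ'/η = e^(v+iθ)`, `s = T|lam|`, `q² = 1-s² ≥ 3/4`:
`ch x x' = (q²|ξ'-η|² + s²(|ξ'|²+|η|²))/(2s²|ξ'||η|) = q²(cosh v - cos θ)/s² + cosh v ≥ 1 + q²(v²/2 + 2θ²/π²)/s² ≥ 1 + (3/2π²)(fd/T)² ≥ 1 + (3/(8π²)) /c0² > 1 + 1/(4π²c0²)`... with `fd ≥ 1`, `T = 2c0`: `(3/2π²)/(4c0²) = 3/(8π²c0²) > 1/(4π²c0²)`.  Contradiction.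
*Counting*: `D` fundamental domain: `∑_(ξ∈P) vol B_ξ = ∫_D ∑_ξ ∑'_γ 1_(B_ξ)(γx) ≤ vol (D ∩ {sb ≤ 6})` (SW1; at most one term is nonzero, and `sb ≤ 1` at `x_ξ` (NEA), so `sb ≤ 4+2` on `B_ξ` (SB4), `sb` is invariant (SB3)); `vol B_ξ = v(ε') > 0` does not depend on `ξ` (`B_ξ = ga g {ch oo z ≤ 1+ε'}`, `g = gx x_ξ`, VOL (2), CHI (2)).
CAN with `S = 6`: `(2-s) vol(..) ≤ C₁(a₀)`.  So `(2-s) |P| ≤ C₁/v`.
Hypotheses: hACT hCHI hVOL hSW1 hACU hPD3 hSB3 hSB4 hCAN hTRI hTTX hNEA hANA hANB. -/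
def StBND : Prop := ∀ (c0 ε a₀ : ℝ), 1 ≤ c0 → 0 < ε → 0 ≤ a₀ → ∃ C m₁ : ℝ, 1 ≤ C ∧ ∀ (Γ : Type) [Group Γ] (ρ σ τ : Γ →* SL)
  (A B : Set ℂ) (F F' : ℂ → ℂ) (α : Γ) (lam : ℂ) (M : ℝ) (G : ℂ → ℂ) (m : ℝ) (φ : ℂ → ℂ) (C3 : ℝ),
  Ann ρ A B α lam M G m φ C3 → m₁ ≤ m → DTub ρ α lam c0 → EBal ρ lam c0 ε →
  CF ρ A F σ → CF ρ B F' τ →
  ∀ (DA DB : Set ℂ), FDOn (ab ρ) A DA → FDOn (ab ρ) B DB →
    ∫⁻ ξ in DA, ENNReal.ofReal (rX F ξ) ≤ ENNReal.ofReal a₀ →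
    ∫⁻ ξ in DB, ENNReal.ofReal (rX F' ξ) ≤ ENNReal.ofReal a₀ →
    ∀ s : ℝ, 1 ≤ s → s < 2 → Summable (fun γ : Γ => hs (ρ γ) ^ (-s)) → Bnd A B lam (C / (2 - s))

/-- BAN (near every limit point there is a big disc in the annulus).

Proof. Let `N = ` the least integer `≥ bb` (`1 ≤ N ≤ 2bb`), `C5` from FUL, `τ = 2πi/lam`, `Im τ ≥ M ≥ m ≥ C bb`.
*(a)* by CLA there is `w₀ ∈ Sm M` with `fd lam (exp(lam G w₀)) ξ ≤ 1` (`ζ ∈ A` close to `ξ`, FDC (4); `ζ = exp(lam G w₀)` by Gb).  *(b)* Let first `Im w₀ ≤ M/2`.  If `Im w₀ ≥ C5 + 2` put `w₁ = w₀`, otherwise `w₁ = Re w₀ + i(C5+2)`; on the vertical segment from `w₀` to `w₁` every `G(w)` has by GLS a point `ζ` of `LS~ = {exp(lam ζ) ∈ LS}` at distance at most `C6 = 4(C5+2)+2`.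
*(c)* **Claim** `|Im G(w₁) - Im G(w₀)| ≤ 8 C6 (N+1)`.  Otherwise (intermediate value theorem) there are points `w^j`, `j = 0..N`, of the segment with `Im G(w^j) = Im G(w₀) ± 4C6 j`; let `ζ_j` be the corresponding points of `LS~`.  For `i ≠ j`: `2C6 ≤ |Im ζ_i - Im ζ_j| ≤ 4C6 N + 2C6 ≤ Im τ - 1` (`C` large).  So for all integers `n, k`: `|ζ_i - ζ_j + n + kτ| ≥ |Im(ζ_i-ζ_j) + k Im τ| ≥ 1`.
By FDC (3) the `N+1 > bb` points `exp(lam ζ_j)` of `LS \ {0}` satisfy the condition of Bnd (they are distinct), contradiction.  *(d)* By FDC (3) choose `ζ` with `exp(lam ζ) = ξ`, `|G w₀ - ζ| ≤ 1`; let `n` be the integer with `|Re(G w₁ + n - ζ)| ≤ 1/2`; `w₂ = w₁ + n`: `G w₂ = G w₁ + n`, `|G w₂ - ζ| ≤ 8C6(N+1) + 2`.  `Im w₂ = Im w₁`.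
*(e)* `w₃ = w₂ + iN`; `P = ball w₃ (N/2)`... all points of `P` have height between `Im w₂ + N/2 ≥ C5 + 2` and `Im w₂ + 2N`; if `w₁ = w₀` use `Im w₀ ≤ M/2` and `M/2 - 2N ≥ C5 + 2`: so `dd M ≥ C5+2 ≥ 2` on the path from `w₂` to `P`, `|G'| ≤ 3` there (HN1): `|G w - G w₂| ≤ 6N` for `w ∈ P`.  (If `Im w₀ > M/2` the same with heights `M - ..` : `w₁ = Re w₀ + i(M - C5 - 2)` or `w₀`, `w₃ = w₂ - iN`.)
*(f)* `V = exp(lam G(P))`.  `P ⊆ φ(Sm m)` by FUL, so `V ⊆ EE lam G φ 0 m`; open, so measurable; `fd lam ξ η ≤ |ζ - G w| ≤ C bb` on `V`; `∫_V 1/(|lam|²|η|²) = ∫_P |G'|² ≥ (1/16) π N²/4` (change of variables, injectivity of `w ↦ exp(lam G w)`, derivative `lam G' exp`; HN1 (2)).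
Hypotheses: hFDC hHN1 hANB hCLA hFUL hGLS. -/
def StBAN : Prop := ∀ C3 : ℝ, 0 ≤ C3 → ∃ C c : ℝ, 1 ≤ C ∧ 0 < c ∧ ∀ (Γ : Type) [Group Γ] (ρ : Γ →* SL) (A B : Set ℂ) (α : Γ)
  (lam : ℂ) (M : ℝ) (G : ℂ → ℂ) (m : ℝ) (φ : ℂ → ℂ) (bb : ℝ), Ann ρ A B α lam M G m φ C3 → Bnd A B lam bb → C * bb ≤ m →
  ∀ ξ ∈ LS A B, ξ ≠ 0 → ∃ V : Set ℂ, MeasurableSet V ∧ V ⊆ EE lam G φ 0 m ∧ (∀ η ∈ V, η ≠ 0 ∧ fd lam ξ η ≤ C * bb) ∧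
    ENNReal.ofReal (c * bb ^ 2) ≤ ∫⁻ η in V, ENNReal.ofReal (1 / (‖lam‖ ^ 2 * ‖η‖ ^ 2))

end Pool.Agent.Helper85.QT
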