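import Pool.Agent.Helper85.QT.St2

/-!
# Project QT, statements 3: the sum over the lifts (section 8) and the first variation (section 9)

Every module `X` proves `theorem hX (h1 : StA) ... : StX`, the statements listed as hypotheses may be used.  Complete proofs in the docstrings.
`th a b ξ = (a-b)²/((ξ-a)²(ξ-b)²)`, `τ = 2πi/lam`, `E = EE lam G φ 0 m`, `E^mid = EE lam G φ (m/3) (2m/3)`, `ff = exp(lam G(φ ·))`.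
-/

set_option autoImplicit false

open MeasureTheory Matrix Set Topology
open scoped ENNReal ComplexConjugate

namespace Pool.Agent.Helper85.QT

open Pool.Agent.Helper86.QA

/-- LIA (harmonic measure of the middle part of the annulus).

Proof. Let `T = TT lam x`.  If `T ≥ m/600`: `hv ≤ 1`.  Otherwise `6|lam|T ≤ 12π/600 < 1` (`|lam|m ≤ 2π`), so `x.1 ≠ 0` and by NEA (1) (`S = 0`) there is `ξ ∈ LS \ {0}` with `fd lam (rd x) ξ ≤ 6T ≤ m/100`.  For `η ∈ E^mid`, `η = ff w`, `dd m w ≥ m/3 ≥ 2`: `m/48 ≤ fd lam η ξ` (LSD (2)), so `fd lam (rd x) η ≥ m/48 - m/100 ≥ m/100 =: r₀`.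
`π hv = ∫_(E^mid) pp² = ∫ (|lam||η|pp)²/(|lam|²|η|²) ≤ 400T² ∫_(fd ≥ r₀) fd⁻⁴/(|lam|²|η|²)` (VIS) and by FLT (`p = rd x`, `fd lam (rd x) η = |log(η/p)/lam|`) the integral is at most `∫_(|ζ|≥r₀) |ζ|⁻⁴ = π/r₀²`.  So `hv ≤ 400T²·10⁴/m²`.
Hypotheses: hHME hFDC hTTX hVIS hFLT hNEA hANB hLSD. -/
def StLIA : Prop := ∃ C m₁ : ℝ, 0 < C ∧ ∀ (Γ : Type) [Group Γ] (ρ : Γ →* SL) (A B : Set ℂ) (α : Γ) (lam : ℂ) (M : ℝ)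
  (G : ℂ → ℂ) (m : ℝ) (φ : ℂ → ℂ) (C3 : ℝ), Ann ρ A B α lam M G m φ C3 → m₁ ≤ m →
  ∀ x ∈ up, sb A B x ≤ 0 → hv (EE lam G φ (m / 3) (2 * m / 3)) x ≤ C * TT lam x ^ 2 / m ^ 2

/-- LIB (harmonic measure of the annulus, lower bound).

Proof. `T = TT lam x ≤ 2c0`, `|lam| ≤ 2π/m`, so `6|lam|T ≤ 1` for `m ≥ 24πc0`; NEA (1): `ξ₀ ∈ LS \ {0}`, `fd lam (rd x) ξ₀ ≤ 6T ≤ 12c0`.  `V` from BAN for `ξ₀` (constants `C₁, c₁`): `fd lam (rd x) η ≤ C₁bb + 12c0 ≤ C₂ bb` on `V`, `|lam| C₂ bb ≤ 1` if `m ≥ 2πC₂bb`.  VIS (lower bound): `|lam||η|pp ≥ T/(2(T²+C₂²bb²)) ≥ κT/bb²`, `κ = 1/(2(4c0²+C₂²))`.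
`π hv E ≥ ∫_V (|lam||η|pp)²/(|lam|²|η|²) ≥ κ²T²/bb⁴ · c₁bb²`.
Hypotheses: hHME hFDC hTTX hVIS hNEA hANB hBAN. -/
def StLIB : Prop := ∀ C3 c0 : ℝ, 0 ≤ C3 → 1 ≤ c0 → ∃ C c : ℝ, 1 ≤ C ∧ 0 < c ∧ ∀ (Γ : Type) [Group Γ] (ρ : Γ →* SL) (A B : Set ℂ)
  (α : Γ) (lam : ℂ) (M : ℝ) (G : ℂ → ℂ) (m : ℝ) (φ : ℂ → ℂ) (bb : ℝ), Ann ρ A B α lam M G m φ C3 → Bnd A B lam bb → C * bb ≤ m →
  ∀ x ∈ up, sb A B x ≤ 0 → TT lam x ≤ 2 * c0 → c * TT lam x ^ 2 / bb ^ 2 ≤ hv (EE lam G φ 0 m) x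

/-- TRA (transport by an element of the group).

Proof. `g = ρ γ`, `V ⊆ A` measurable, `V' = mb g '' V` is the set of `ξ ∈ A` with `mb (g⁻¹) ξ ∈ V`, measurable.  (2) HME (8) for `g⁻¹`: for `(ρ γ⁻¹) 1 0 * ξ + .. ≠ 0`: `ξ ∈ V' ↔ mb (ρ γ⁻¹) ξ ∈ V` (CHV (2), (4), `mpA`).  (3) change of variables `ξ = mb g ζ`, injective on `A`, derivative `(cζ+d)⁻²`, real Jacobian `|cζ+d|⁻⁴`.
With `a' = mb g⁻¹ a`, `b' = mb g⁻¹ b` (`a = mb g a'`, `ca'+d ≠ 0`), CHV (3): `th a b (mb g ζ) = (cζ+d)⁴ th a' b' ζ`.  (4) moreover `μ(mb g ζ) conj((cζ+d)⁻²) = μ ζ (cζ+d)⁻²`, so `μ(mb g ζ) th a b (mb g ζ) |cζ+d|⁻⁴ = μ ζ th a' b' ζ`.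
Hypotheses: hCHV hHME. -/
def StTRA : Prop := ∀ (Γ : Type) [Group Γ] (ρ : Γ →* SL) (A B : Set ℂ), KD ρ A B → ∀ (g : Γ) (V : Set ℂ), V ⊆ A → MeasurableSet V →
  (MeasurableSet (mb (ρ g) '' V) ∧ mb (ρ g) '' V ⊆ A) ∧
  (∀ x ∈ up, hv (mb (ρ g) '' V) x = hv V (ga (ρ g⁻¹) x)) ∧
  (∀ a b : ℂ, a ≠ b → (ρ g⁻¹) 1 0 * a + (ρ g⁻¹) 1 1 ≠ 0 → (ρ g⁻¹) 1 0 * b + (ρ g⁻¹) 1 1 ≠ 0 →
    (∫⁻ ξ in mb (ρ g) '' V, ENNReal.ofReal ‖th a b ξ‖ = ∫⁻ ξ in V, ENNReal.ofReal ‖th (mb (ρ g⁻¹) a) (mb (ρ g⁻¹) b) ξ‖) ∧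
    ∀ (lam : ℂ) (G φ : ℂ → ℂ) (m : ℝ) (μ0 : ℂ) (μ : ℂ → ℂ), Cof ρ A lam G φ m μ0 μ →
      ∫ ξ in mb (ρ g) '' V, μ ξ * th a b ξ = ∫ ξ in V, μ ξ * th (mb (ρ g⁻¹) a) (mb (ρ g⁻¹) b) ξ)

/-- LIC (the sum over the lifts).

Proof. Let `g = q.out`, `y = ga (ρ g⁻¹) x ∈ up` (ACT), `sb y = sb x ≤ 0` (SB3), `TT lam y = Tg ρ lam g x`.  The sets `mb (ρ g) '' E` for different cosets are pairwise disjoint (field `dj` for `γ = g₁⁻¹g₂`, not a power of `α`, image under `ρ g₁`, CHV (2)), measurable (TRA, ANB), so `∑ hv (mb (ρ g) '' E) x ≤ 1` (HME (1), countable additivity of the integral;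
finite subfamilies are enough for `tsum` in `ℝ≥0∞`), and `hv (mb (ρ g) '' E) x = hv E y ≥ c Tg²/bb²` if `Tg ≤ 2c0` (LIB).  So `∑ Tg² ≤ bb²/c`.  Second claim: `hv (mb (ρ g) '' E^mid) x = hv E^mid y ≤ C Tg²/m²` (LIA).
Hypotheses: hACT hCHV hHME hSB3 hANB hTRA hLIA hLIB. -/
def StLIC : Prop := ∀ C3 c0 : ℝ, 0 ≤ C3 → 1 ≤ c0 → ∃ C : ℝ, 1 ≤ C ∧ ∀ (Γ : Type) [Group Γ] (ρ : Γ →* SL) (A B : Set ℂ)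
  (α : Γ) (lam : ℂ) (M : ℝ) (G : ℂ → ℂ) (m : ℝ) (φ : ℂ → ℂ) (bb : ℝ), Ann ρ A B α lam M G m φ C3 → Bnd A B lam bb → C * bb ≤ m →
  ∀ x ∈ up, sb A B x ≤ 0 →
    (∑' q : Γ ⧸ Subgroup.zpowers α, {T : ℝ | T ≤ 2 * c0}.indicator (fun T => ENNReal.ofReal (T ^ 2)) (Tg ρ lam q.out x) ≤
      ENNReal.ofReal (C * bb ^ 2)) ∧
    (∑' q : Γ ⧸ Subgroup.zpowers α, {T : ℝ | T ≤ 2 * c0}.indicator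
        (fun _ => ENNReal.ofReal (hv (mb (ρ q.out) '' EE lam G φ (m / 3) (2 * m / 3)) x)) (Tg ρ lam q.out x) ≤
      ENNReal.ofReal (C * bb ^ 2 / m ^ 2))

/-- CRF (Crofton formula).

Proof. `x = gp a b u`, `l = |a-b|`: `(|x.1-ξ|²+x.2²)/x.2 = (e^u|ξ-a|²+e^(-u)|ξ-b|²)/l` (`Xm x` is `(e^u/l) v_a v_aᴴ + (e^(-u)/l) v_b v_bᴴ`, see SB5; or direct), so `pp x ξ = l/(e^uP+e^(-u)Q)`, `P = |ξ-a|²`, `Q = |ξ-b|²`, `e^uP+e^(-u)Q = 2√(PQ) cosh(u + (1/2)log(P/Q))`.  `∫ du/cosh² = 2`: `∫ pp² du = l²/(2PQ) = |th|/2`.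
(2) Tonelli (`(u,ξ) ↦ pp (gp a b u) ξ` is continuous), `hv V x = (1/π)∫_V pp²`, the points `a`, `b` are a null set.
Hypotheses: hHME hSB5. -/
def StCRF : Prop := ∀ a b : ℂ, a ≠ b →
  (∀ ξ : ℂ, ξ ≠ a → ξ ≠ b → ∫⁻ u : ℝ, ENNReal.ofReal (pp (gp a b u) ξ ^ 2) = ENNReal.ofReal (‖th a b ξ‖ / 2)) ∧
  (∀ V : Set ℂ, MeasurableSet V → ∫⁻ ξ in V, ENNReal.ofReal ‖th a b ξ‖ =
    ENNReal.ofReal (2 * Real.pi) * ∫⁻ u : ℝ, ENNReal.ofReal (hv V (gp a b u))) ∧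
  (∀ V : Set ℂ, MeasurableSet V → Measurable (fun u : ℝ => hv V (gp a b u)))

/-- GPM (Moebius transformations and geodesics).

Proof. `Xm (gp a b u) = (e^u/l) v_a v_aᴴ + (e^(-u)/l) v_b v_bᴴ`, `l = |a-b|` (SB5).  (1) `Xm (ga g x) = g Xm x gᴴ` (ACT), `g v_a = q_a v_(a')`, `q_a = ca+d`, `a' = mb g a`, `|a'-b'| = l/(|q_a||q_b|)` (CHV (3)), so the coefficients are `e^u|q_a|²/l = e^(u')/l'`, `e^(-u)|q_b|²/l = e^(-u')/l'` with `u' = u + log(|q_a|/|q_b|)`, `l' = |a'-b'|`; `Xm` is injective on `up`.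
(2) `Mlt g a b l`: `mb g ξ - a = (ξ-a)/((cξ+d)q_a)`, `mb g ξ - b = (ξ-b)/((cξ+d)q_b)`, so `e^l = q_b/q_a` (any `ξ ≠ a, b`, `cξ+d ≠ 0`), `q_a q_b = 1` (eigenvalues of a matrix of determinant one with the independent eigenvectors `v_a`, `v_b`), `|q_b|² = e^(Re l)`; by (1) `u' = u - Re l`.
(3) `(γg)⁻¹ = g⁻¹γ⁻¹`, `ρ(γ⁻¹) v_a = q_a⁻¹ v_a`: `pq ρ (γg) a = q_a⁻² pq ρ g a`, `pq ρ (γg) b = q_b⁻² pq ρ g b`, `cen ρ (γg) a b = cen ρ g a b + (1/2)(2 log|q_a| - 2 log|q_b|) = cen - Re l`.  (4) `mb (ρ (γg)⁻¹) a = mb (ρ g⁻¹) a`.  (5) `Tg ρ lam (γg) x = Tg ρ lam g (ga (ρ γ⁻¹) x)` and (2) for `γ⁻¹`.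
(6) `ρ (gα^n)⁻¹ = ρ(α)^(-n) ρ(g)⁻¹`, diagonal: `pq` is multiplied by `d_n a_n = 1`.
Hypotheses: hACT hCHV hSB5 hTTX. -/
def StGPM : Prop :=
  (∀ (g : SL) (a b : ℂ) (u : ℝ), a ≠ b → g 1 0 * a + g 1 1 ≠ 0 → g 1 0 * b + g 1 1 ≠ 0 →
    mb g a ≠ mb g b ∧
    ga g (gp a b u) = gp (mb g a) (mb g b) (u + Real.log (‖g 1 0 * a + g 1 1‖ / ‖g 1 0 * b + g 1 1‖))) ∧
  (∀ (g : SL) (a b l : ℂ) (u : ℝ), Mlt g a b l → ga g (gp a b u) = gp a b (u - l.re)) ∧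
  (∀ (Γ : Type) [Group Γ] (ρ : Γ →* SL) (γ : Γ) (a b l : ℂ), Mlt (ρ γ) a b l → ∀ g : Γ,
    (pq ρ g a ≠ 0 → pq ρ g b ≠ 0 → pq ρ (γ * g) a ≠ 0 ∧ pq ρ (γ * g) b ≠ 0 ∧ cen ρ (γ * g) a b = cen ρ g a b - l.re) ∧
    (mb (ρ (γ * g)⁻¹) a = mb (ρ g⁻¹) a ∧ mb (ρ (γ * g)⁻¹) b = mb (ρ g⁻¹) b) ∧
    (∀ (lam : ℂ) (u : ℝ), Tg ρ lam (γ * g) (gp a b u) = Tg ρ lam g (gp a b (u + l.re)))) ∧
  (∀ (Γ : Type) [Group Γ] (ρ : Γ →* SL) (α : Γ) (lam : ℂ), 0 < lam.re → ((ρ α) 0 1 = 0 ∧ (ρ α) 1 0 = 0) →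
    (ρ α) 0 0 = Complex.exp lam * (ρ α) 1 1 → ∀ (g : Γ) (n : ℤ),
      (∀ a : ℂ, pq ρ (g * α ^ n) a = pq ρ g a ∧ mb (ρ (g * α ^ n)⁻¹) a = Complex.exp (-(n * lam)) * mb (ρ g⁻¹) a) ∧
      (∀ x ∈ up, Tg ρ lam (g * α ^ n) x = Tg ρ lam g x))

/-- TGF (flat height along a geodesic).

Proof. `M = ρ g⁻¹`, `(p_a,q_a) = M (a,1)`, `x = gp a b u`, `y = ga M x`: `Xm y = (e^u/l)(p_a,q_a)(..)ᴴ + (e^(-u)/l)(p_b,q_b)(..)ᴴ`, so `(|y.1|²+y.2²)/y.2 = (e^u|p_a|²+e^(-u)|p_b|²)/l`, `1/y.2 = (e^u|q_a|²+e^(-u)|q_b|²)/l`, `TT lam y² = y.2²/(|lam|²(|y.1|²+y.2²)) = l²/(|lam|²(e^u|p_a|²+e^(-u)|p_b|²)(e^u|q_a|²+e^(-u)|q_b|²))`.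
Expand: `e^(2u)|p_aq_a|² + e^(-2u)|p_bq_b|² = 2|p_aq_a||p_bq_b| cosh 2(u-cen)`, the other terms `|p_aq_b|²+|p_bq_a|²`.  Divide by `|p_aq_ap_bq_b|`; `a' = p_a/q_a`, `|a'-b'|²/(|a'||b'|) = l²/|p_aq_ap_bq_b|` (CHV (3)).  (2) and (3): monotonicity of `cosh`.
Hypotheses: hACT hCHV hSB5. -/
def StTGF : Prop := ∀ (Γ : Type) [Group Γ] (ρ : Γ →* SL) (lam : ℂ), lam ≠ 0 → ∀ (g : Γ) (a b : ℂ), a ≠ b → pq ρ g a ≠ 0 → pq ρ g b ≠ 0 →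
  (∀ u : ℝ, Tg ρ lam g (gp a b u) ^ 2 =
    (‖mb (ρ g⁻¹) a - mb (ρ g⁻¹) b‖ ^ 2 / (‖mb (ρ g⁻¹) a‖ * ‖mb (ρ g⁻¹) b‖)) /
    (‖lam‖ ^ 2 * (2 * Real.cosh (2 * (u - cen ρ g a b)) + ‖mb (ρ g⁻¹) a‖ / ‖mb (ρ g⁻¹) b‖ + ‖mb (ρ g⁻¹) b‖ / ‖mb (ρ g⁻¹) a‖))) ∧
  (∀ u : ℝ, 0 < Tg ρ lam g (gp a b u)) ∧ Continuous (fun u : ℝ => Tg ρ lam g (gp a b u)) ∧
  (∀ u u' : ℝ, |u - cen ρ g a b| ≤ |u' - cen ρ g a b| → Tg ρ lam g (gp a b u') ≤ Tg ρ lam g (gp a b u)) ∧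
  (∀ c : ℝ, 0 < c → ∃ R : ℝ, ∀ u : ℝ, R ≤ |u - cen ρ g a b| → Tg ρ lam g (gp a b u) < c)

/-- DFX (fixed points of the other elements).

Proof. `a ∈ LS`: all `γ^n`, `n ∈ ℕ`, fix `a`; if `a ∈ A ∪ B`, PD2 (last set, `K = K' = {a}`, or the set `{a}` with `mb`; denominators `≠ 0` by `mpA`) gives `γ^m = γ^n`, so `γ = 1`, impossible (`e^l ≠ 1`).  Let `γ' = g⁻¹γg`, `M = ρ g⁻¹`, `(p_a,q_a) = M(a,1)`, an eigenvector of `ρ γ'`.  *If `q_a = 0`* then `(1,0)` is an eigenvector: `ρ γ' = [[p,q],[0,1/p]]`.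
`ρ(α^k γ' α^(-k)) = [[p, q e^(k lam)],[0,1/p]]`, bounded for `k ≤ 0`, so by `disc` the set `{α^k γ' α^(-k) : k ≤ 0}` is finite: two different `k, j ≤ 0` give the same element, `q e^(k lam) = q e^(j lam)`, so `q = 0`.  Then `st` gives `γ' = α^n`: contradiction.  *If `p_a = 0`*: `(0,1)` is an eigenvector, `ρ γ' = [[p,0],[r,1/p]]`,
conjugate with `k ≥ 0`.  The same for `b`.  `a' = p_a/q_a ∈ LS` by SB3 (2), `≠ 0`; `a' ≠ b'` by CHV (3).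
Hypotheses: hCHV hPD2 hSB3 hANA. -/
def StDFX : Prop := ∀ (Γ : Type) [Group Γ] (ρ : Γ →* SL) (A B : Set ℂ) (α : Γ) (lam : ℂ) (M : ℝ) (G : ℂ → ℂ) (m : ℝ)
  (φ : ℂ → ℂ) (C3 : ℝ), Ann ρ A B α lam M G m φ C3 → ∀ (γ : Γ) (a b l : ℂ), (∀ (g : Γ) (n : ℤ), g⁻¹ * γ * g ≠ α ^ n) →
  Mlt (ρ γ) a b l → 0 < l.re → a ∈ LS A B ∧ b ∈ LS A B ∧ ∀ g : Γ,
    pq ρ g a ≠ 0 ∧ pq ρ g b ≠ 0 ∧ (ρ g⁻¹) 1 0 * a + (ρ g⁻¹) 1 1 ≠ 0 ∧ (ρ g⁻¹) 1 0 * b + (ρ g⁻¹) 1 1 ≠ 0 ∧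
    mb (ρ g⁻¹) a ∈ LS A B ∧ mb (ρ g⁻¹) a ≠ 0 ∧ mb (ρ g⁻¹) b ∈ LS A B ∧ mb (ρ g⁻¹) b ≠ 0 ∧ mb (ρ g⁻¹) a ≠ mb (ρ g⁻¹) b

/-- HLI (holomorphic integrable functions on a strip).

Proof. Mean value property on balls `ball w r ⊆ Sm m`: `|h w| ≤ (1/πr²) ∫_(ball w r) |h|`.  So for `0 < y < m`, `∫ |h(x+iy)| dx ≤ (2/(πr)) ∫_(|Im - y|<r) |h| < ∞` (Tonelli), and `h(x+iy) → 0` as `|x| → ∞`, uniformly for `y` in compact subsets of `(0,m)` (tails of an integrable function).  Rectangle theorem: `∫ h(x+iy) dx = J` does not depend on `y`.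
(2) Fubini.  (3) `∫_(Sm m) h = mJ`, `∫_(mid) h = (m/3)J`.  (4) with `r = 1`: `∫ |h(x+im/2)| dx ≤ (2/π) ∫_(|Im-m/2|<1) |h|`, `m/3 ≤ m/2-1`. -/
def StHLI : Prop := ∀ (m : ℝ) (h : ℂ → ℂ), 0 < m → DifferentiableOn ℂ h (Sm m) → IntegrableOn h (Sm m) →
  ∃ J : ℂ, (∀ y : ℝ, 0 < y → y < m → Integrable (fun x : ℝ => h (x + y * Complex.I)) ∧ ∫ x : ℝ, h (x + y * Complex.I) = J) ∧
    (∀ a b : ℝ, 0 ≤ a → a ≤ b → b ≤ m → ∫ w in Sab a b, h w = ((b - a : ℝ) : ℂ) * J) ∧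
    ‖∫ w in Sm m, h w‖ ≤ 3 * ∫ w in Sab (m / 3) (2 * m / 3), ‖h w‖ ∧
    (6 ≤ m → ∫ x : ℝ, ‖h (x + (m / 2 : ℝ) * Complex.I)‖ ≤ ∫ w in Sab (m / 3) (2 * m / 3), ‖h w‖)

/-- PUL (the quadratic differential in the coordinate of the annulus).

Proof. `Θ w = th a b (ff w) (ff' w)²`.  `E = ff '' Sm m` is open, in `A` (ANB); by Cls `|ξ-a| ≥ ε`, `|ξ-b| ≥ ε` on `E`.  So `th a b` is bounded on `E` and `≤ 16|a-b|²/|ξ|⁴` for `|ξ| ≥ 2(|a|+|b|)`: integrable on `E`.  Change of variables (`ff` injective, Jacobian `|ff'|²`): `∫_(ff '' S) |th| = ∫_S |th(ff)||ff'|²`, so `Θ` is integrable on `Sm m`; it is holomorphic (`ff w ≠ a, b`).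
`μ(ff w) th(ff w)|ff'|² = [μ(ff w) conj(ff')] th ff' = μ0 ff' th ff' = μ0 Θ`.
Hypotheses: hANB. -/
def StPUL : Prop := ∀ (Γ : Type) [Group Γ] (ρ : Γ →* SL) (A B : Set ℂ) (α : Γ) (lam : ℂ) (M : ℝ) (G : ℂ → ℂ) (m : ℝ)
  (φ : ℂ → ℂ) (C3 : ℝ), Ann ρ A B α lam M G m φ C3 → Cls A B lam G φ m →
  ∀ a ∈ LS A B, ∀ b ∈ LS A B, a ≠ 0 → b ≠ 0 → a ≠ b →
    DifferentiableOn ℂ (fun w => th a b (ff lam G φ w) * deriv (ff lam G φ) w ^ 2) (Sm m) ∧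
    IntegrableOn (fun w => th a b (ff lam G φ w) * deriv (ff lam G φ) w ^ 2) (Sm m) ∧
    (∀ c d : ℝ, 0 ≤ c → d ≤ m → IntegrableOn (th a b) (EE lam G φ c d) ∧
      ∫ ξ in EE lam G φ c d, ‖th a b ξ‖ = ∫ w in Sab c d, ‖th a b (ff lam G φ w) * deriv (ff lam G φ) w ^ 2‖) ∧
    ∀ (μ0 : ℂ) (μ : ℂ → ℂ), Cof ρ A lam G φ m μ0 μ → IntegrableOn (fun ξ => μ ξ * th a b ξ) (EE lam G φ 0 m) ∧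
      ∫ ξ in EE lam G φ 0 m, μ ξ * th a b ξ = μ0 * ∫ w in Sm m, th a b (ff lam G φ w) * deriv (ff lam G φ) w ^ 2

/-- LKA (a lift contributes at most three times the middle part).

Proof. PUL and HLI (3), `|μ0| ≤ 1` (`Sm m = Sab 0 m`).
Hypotheses: hHLI hPUL. -/
def StLKA : Prop := ∀ (Γ : Type) [Group Γ] (ρ : Γ →* SL) (A B : Set ℂ) (α : Γ) (lam : ℂ) (M : ℝ) (G : ℂ → ℂ) (m : ℝ)
  (φ : ℂ → ℂ) (C3 : ℝ), Ann ρ A B α lam M G m φ C3 → Cls A B lam G φ m →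
  ∀ (μ0 : ℂ) (μ : ℂ → ℂ), Cof ρ A lam G φ m μ0 μ → ‖μ0‖ ≤ 1 → ∀ a ∈ LS A B, ∀ b ∈ LS A B, a ≠ 0 → b ≠ 0 → a ≠ b →
    ENNReal.ofReal ‖∫ ξ in EE lam G φ 0 m, μ ξ * th a b ξ‖ ≤
      3 * ∫⁻ ξ in EE lam G φ (m / 3) (2 * m / 3), ENNReal.ofReal ‖th a b ξ‖

/-- LKZ (the quadratic differential far from its poles, elementary).

Proof. `X = log(ξ/a)`, `|Im X| ≤ π`, `|X| = |lam|d`, `d = fd lam ξ a ≥ r₀`.  (i) `|e^X - 1| ≥ (1/3) min(1,|X|) max(1,|e^X|)`: by `X → -X` let `Re X = u ≤ 0`, `v = Im X`; `|e^X-1|² = (1-e^u)² + 2e^u(1-cos v) ≥ (1-e^u)² + (4/π²)e^u v²`; for `|u| ≤ 1` it is `≥ 0.39u² + 0.14v²` (`1-e^u ≥ (1-1/e)|u|`), for `|u| ≥ 1` it is `≥ (1-1/e)²`; so `≥ (1/9) min(1,|X|²)`.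
So `|ξ-a| ≥ (1/3) min(1,|lam|d) max(|ξ|,|a|)`.  (ii) `fd lam ξ b ≥ d - D ≥ d/2`, `D = fd lam a b` (FDC): `|ξ-b| ≥ (1/6) min(1,|lam|d) max(|ξ|,|b|)`.  (iii) `|lam|D ≤ 1/2`: `|a-b| ≤ 2|lam|D|b|` and `|a| ≥ e^(-1/2)|b|`.  So `|th| ≤ 1296|lam|²D²|b|²/(min(1,|lam|d)⁴ max(|ξ|,|a|)² max(|ξ|,|b|)²)`.  *Where `|lam|d ≤ 1`*: `≤ 1296 D²/(|lam|²d⁴|ξ|²)`,
integral `≤ 1296πD²/r₀²` by FLT (`p = a`).  *Where `|lam|d ≥ 1`*: `≤ 1296 e |lam|²D²|b|²/max(|ξ|,|b|)⁴`, integral `≤ 1296·2πe|lam|²D² ≤ C D²/r₀²`.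
Hypotheses: hFDC hFLT. -/
def StLKZ : Prop := ∃ C : ℝ, 0 < C ∧ ∀ (lam a b : ℂ) (r₀ : ℝ), lam ≠ 0 → a ≠ 0 → b ≠ 0 → 0 < r₀ → ‖lam‖ * r₀ ≤ 1 → 2 * fd lam a b ≤ r₀ →
  ∫⁻ ξ in {ξ : ℂ | ξ ≠ 0 ∧ r₀ ≤ fd lam ξ a}, ENNReal.ofReal ‖th a b ξ‖ ≤ ENNReal.ofReal (C * fd lam a b ^ 2 / r₀ ^ 2)

/-- LKB (end points at small flat distance).

Proof. `r₀ = m/48`, `|lam|r₀ ≤ 2π/48 < 1` (ANB), `D ≤ m/96`.  For `ξ ∈ E^mid`: `ξ = ff w`, `dd m w ≥ m/3`, `fd lam ξ a ≥ m/48` (LSD (2)), `ξ ≠ 0`.  LKZ.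
Hypotheses: hFDC hANB hLSD hLKZ. -/
def StLKB : Prop := ∃ C m₁ : ℝ, 0 < C ∧ ∀ (Γ : Type) [Group Γ] (ρ : Γ →* SL) (A B : Set ℂ) (α : Γ) (lam : ℂ) (M : ℝ)
  (G : ℂ → ℂ) (m : ℝ) (φ : ℂ → ℂ) (C3 : ℝ), Ann ρ A B α lam M G m φ C3 → m₁ ≤ m →
  ∀ a ∈ LS A B, ∀ b ∈ LS A B, a ≠ 0 → b ≠ 0 → fd lam a b ≤ m / 96 →
    ∫⁻ ξ in EE lam G φ (m / 3) (2 * m / 3), ENNReal.ofReal ‖th a b ξ‖ ≤ ENNReal.ofReal (C * fd lam a b ^ 2 / m ^ 2)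

/-- LKE (the exact line integral).

Proof. `c(t) = ff(t + im/2)`, `c(t+1) = e^lam c(t)`, so `c(t) → 0` as `t → -∞`, `|c(t)| → ∞` as `t → ∞` exponentially; `c' = ff'`; the integrand is `ξ th a b ξ dξ` along `c`; `c` avoids `LS`.
*Partial fractions*: `(a-b)²ξ/((ξ-a)²(ξ-b)²) = a/(ξ-a)² + b/(ξ-b)² - ((a+b)/(a-b)) (1/(ξ-a) - 1/(ξ-b))`.  `∫_c a/(ξ-a)² dξ = [-a/(ξ-a)] = 0 - 1 = -1`, the same for `b`.  `J(p) = ∫_c (1/(ξ-p) - 1/(ξ-b)) dξ` for `p` not on `c`: so the integral is `-2 - ((a+b)/(a-b)) J(a)`.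
*Claim*: `J(a) = -lam δ`.  Let `κ`, `y₀ = Im κ + m/2` be as in LSD (3): `|G(φ w) - w - κ| ≤ 1/2` on the line, so `Im G(φ(t+im/2)) ∈ [y₀-1/2, y₀+1/2]`, and there are `ζ_a`, `ζ_b` with `exp(lam ζ_a) = a`, `exp(lam ζ_b) = b`, imaginary parts in `[y₀+m/50, y₀+Im τ-m/50]`.  `U = {y₀+1/2 < Im ζ < y₀+Im τ-1/2}` is convex, and for `ζ ∈ U`, `exp(lam ζ) ∉ c` (`exp(lam ζ) = exp(lam G(φ w))` would give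
`ζ = G(φ w) + kτ`, imaginary part in `[y₀-1/2,y₀+1/2] + k Im τ`).  On `U` the function `j(ζ) = J(exp(lam ζ))` is holomorphic with `dJ/dp = ∫_c dξ/(ξ-p)² = [-1/(ξ-p)] = -1/p`, so `j' = -lam` (differentiate under the integral: locally the integrand is dominated by `C|c'|/(1+|c|)²`), `j(ζ_b) = J(b) = 0`, so `J(a) = -lam(ζ_a-ζ_b)`.  Put `δ = ζ_a - ζ_b`: `exp(lam δ) = a/b`,
`|Im δ| ≤ Im τ - m/25`.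
Hypotheses: hANB hLSD. -/
def StLKE : Prop := ∃ m₁ : ℝ, ∀ (Γ : Type) [Group Γ] (ρ : Γ →* SL) (A B : Set ℂ) (α : Γ) (lam : ℂ) (M : ℝ)
  (G : ℂ → ℂ) (m : ℝ) (φ : ℂ → ℂ) (C3 : ℝ), Ann ρ A B α lam M G m φ C3 → m₁ ≤ m →
  ∀ a ∈ LS A B, ∀ b ∈ LS A B, a ≠ 0 → b ≠ 0 → a ≠ b → ∃ δ : ℂ, Complex.exp (lam * δ) = a / b ∧
    |δ.im| ≤ (2 * Real.pi * Complex.I / lam).im - m / 25 ∧
    Integrable (fun t : ℝ => th a b (ff lam G φ (t + (m / 2 : ℝ) * Complex.I)) * ff lam G φ (t + (m / 2 : ℝ) * Complex.I) *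
      deriv (ff lam G φ) (t + (m / 2 : ℝ) * Complex.I)) ∧
    ∫ t : ℝ, th a b (ff lam G φ (t + (m / 2 : ℝ) * Complex.I)) * ff lam G φ (t + (m / 2 : ℝ) * Complex.I) *
      deriv (ff lam G φ) (t + (m / 2 : ℝ) * Complex.I) = -2 + ((a + b) / (a - b)) * (lam * δ)

/-- LKF (bound of the exact value, elementary).

Proof. `X₀ = log(a/b)/2` (principal, `|Im X₀| ≤ π/2`), `D = fd lam a b = 2|X₀|/|lam|`; `lam δ = 2X₀ - 2πik₀` for some integer `k₀`; `(a+b)/(a-b) = coth(X₀)`.  The number is `2(X₀ coth X₀ - 1) - 2πi k₀ coth X₀`.  (i) `|X₀ coth X₀ - 1| ≤ C|X₀|` for `|Im X₀| ≤ π/2`, `X₀ ≠ 0`: near `0` it is `O(|X₀|²)`; for `|X₀| ≥ 1/2`, `|coth X₀| ≤ C` there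
(`|sinh(u+iv)|² = sinh²u + sin²v`, `|cosh|² = sinh²u + cos²v`).  (ii) `|coth X₀| ≤ C(1+1/|X₀|)`.  (iii) `m|lam||X₀| ≤ 2π|X₀| ≤ π(|log(|a|/|b|)| + π)`.  (iv) if `k₀ ≠ 0`: `Im τ = 2πRe lam/|lam|²`; `|k₀| Im τ ≤ |Im δ| + D ≤ Im τ - cm + D`, so `D ≥ cm` and `D ≥ (|k₀|-1)Im τ ≥ (|k₀|-1)m`.  So
`m|lam||k₀|(1 + 1/|X₀|) = m|lam||k₀| + 2m|k₀|/D`, `m|k₀|/D ≤ m/D + 1 ≤ 1/c + 1` and `m|lam||k₀| ≤ m|lam| + |lam|D (m/Im τ) ≤ 2π + 2|X₀|`. -/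
def StLKF : Prop := ∀ c : ℝ, 0 < c → ∃ C : ℝ, 0 < C ∧ ∀ (lam a b δ : ℂ) (m : ℝ), 0 < lam.re → 1 ≤ m →
  m ≤ 2 * Real.pi * lam.re / ‖lam‖ ^ 2 → a ≠ 0 → b ≠ 0 → a ≠ b → Complex.exp (lam * δ) = a / b →
  |δ.im| ≤ 2 * Real.pi * lam.re / ‖lam‖ ^ 2 - c * m →
    m * ‖lam‖ * ‖-2 + ((a + b) / (a - b)) * (lam * δ)‖ ≤ C * (1 + |Real.log (‖a‖ / ‖b‖)|)

/-- LKC (the contribution of a lift, by the exact integral).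

Proof. `K = ∫_E μ th = μ0 ∫_(Sm m) Θ = μ0 m J`, `J = ∫ Θ(t+im/2) dt` (PUL, HLI (1), (2)), `Θ = th(ff) ff'²`, `ff' = lam F' ff`, `F = G ∘ φ`.  `th(ff) ff ff' lam = Θ/F'`, so `J - lam ∫ th(ff) ff ff' = ∫ Θ(1 - 1/F')`, and on the line `|1-1/F'| = |F'-1|/|F'| ≤ 4Ce^(-cm/2)` (HN1 (2), HN2).  `∫|Θ(t+im/2)| dt ≤ ∫_(mid)|Θ| = ∫_(E^mid)|th|` (HLI (4), PUL).
So `|K| ≤ m|lam||-2 + ..| + 4Cme^(-cm/2)∫_(E^mid)|th|`; LKE, LKF (`c = 1/25`), `me^(-cm/2) ≤ C/m²`.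
Hypotheses: hHN1 hHN2 hANB hHLI hPUL hLKE hLKF. -/
def StLKC : Prop := ∃ C m₁ : ℝ, 0 < C ∧ ∀ (Γ : Type) [Group Γ] (ρ : Γ →* SL) (A B : Set ℂ) (α : Γ) (lam : ℂ) (M : ℝ)
  (G : ℂ → ℂ) (m : ℝ) (φ : ℂ → ℂ) (C3 : ℝ), Ann ρ A B α lam M G m φ C3 → Cls A B lam G φ m → m₁ ≤ m →
  ∀ (μ0 : ℂ) (μ : ℂ → ℂ), Cof ρ A lam G φ m μ0 μ → ‖μ0‖ ≤ 1 → ∀ a ∈ LS A B, ∀ b ∈ LS A B, a ≠ 0 → b ≠ 0 → a ≠ b →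
    ENNReal.ofReal ‖∫ ξ in EE lam G φ 0 m, μ ξ * th a b ξ‖ ≤ ENNReal.ofReal (C * (1 + |Real.log (‖a‖ / ‖b‖)|)) +
      ENNReal.ofReal (C / m ^ 2) * ∫⁻ ξ in EE lam G φ (m / 3) (2 * m / 3), ENNReal.ofReal ‖th a b ξ‖

/-- TIN (the part of a geodesic outside the tube).

Proof. TGF for the trivial group (`Γ = Unit`-like: use the formula with `g = 1`; or compute directly): `T(v)² = (cosh Δ - cos θ)/(|lam|²(cosh 2v + cosh Δ))`, where `a/b = e^(Δ+iθ)` (`|a-b|²/(|a||b|) = 2cosh Δ - 2cos θ`), `v = u - cen`, `cen = (1/2)log(|b|/|a|)`; `K' = cosh Δ`.  `|lam|⁻² ≥ 64c0²`.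
*Case 1*: `T ≤ 2c0` everywhere.  Then `K' ≤ 2`: if `K' > 2`, `T(0)² ≥ (K'-1)/(|lam|²(1+K')) ≥ 64c0²/3 > 4c0²`.  So `T(v)² = T(0)²(1+K')/(cosh 2v+K') ≤ 12c0²/cosh 2v`, integral `≤ 12c0²·2`.  *Case 2*: `T(v₀) = 2c0` with `v₀ ≥ 0`, and `{T ≤ 2c0} = {|v| ≥ v₀}`.  There `T(v)² = 4c0²(cosh 2v₀+K')/(cosh 2v+K')`.  If `K' ≤ 2`: `(cosh 2v₀+K')/(cosh 2v+K') ≤ 3cosh 2v₀/cosh 2v ≤ 6e^(-2(|v|-v₀))`.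
If `K' > 2`: at the point with `cosh 2v = K'`, `T² = (K'-cos θ)/(2K'|lam|²) ≥ 16c0² > 4c0²`, so `cosh 2v₀ ≥ K'` and the quotient is `≤ 2cosh 2v₀/cosh 2v ≤ 4e^(-2(|v|-v₀))`.  The integral is at most `24c0²`.
Hypotheses: hACT hTGF. -/
def StTIN : Prop := ∀ c0 : ℝ, 1 ≤ c0 → ∀ lam : ℂ, lam ≠ 0 → 8 * c0 * ‖lam‖ ≤ 1 → ∀ a b : ℂ, a ≠ 0 → b ≠ 0 → a ≠ b →
  (∫⁻ u in {u : ℝ | TT lam (gp a b u) ≤ 2 * c0}, ENNReal.ofReal (TT lam (gp a b u) ^ 2) ≤ ENNReal.ofReal (24 * c0 ^ 2)) ∧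
  volume {u : ℝ | 2 * c0 < TT lam (gp a b u)} ≠ ∞

/-- LKD (the middle part of a lift seen from a geodesic).

Proof. CRF: `∫_(E^mid)|th| = 2π ∫ hv(E^mid)(gp a b u) du`; where `TT > 2c0`: `hv ≤ 1`; where `TT ≤ 2c0`: `hv ≤ C TT²/m²` (LIA; `sb ≤ 0` by SB5), TIN (`8c0|lam| ≤ 16πc0/m ≤ 1`).
Hypotheses: hHME hSB5 hANB hLIA hCRF hTIN. -/
def StLKD : Prop := ∀ c0 : ℝ, 1 ≤ c0 → ∃ C m₁ : ℝ, 0 < C ∧ ∀ (Γ : Type) [Group Γ] (ρ : Γ →* SL) (A B : Set ℂ) (α : Γ) (lam : ℂ) (M : ℝ)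
  (G : ℂ → ℂ) (m : ℝ) (φ : ℂ → ℂ) (C3 : ℝ), Ann ρ A B α lam M G m φ C3 → m₁ ≤ m →
  ∀ a ∈ LS A B, ∀ b ∈ LS A B, a ≠ 0 → b ≠ 0 → a ≠ b →
    ∫⁻ ξ in EE lam G φ (m / 3) (2 * m / 3), ENNReal.ofReal ‖th a b ξ‖ ≤
      ENNReal.ofReal C + ENNReal.ofReal (2 * Real.pi) * volume {u : ℝ | 2 * c0 < TT lam (gp a b u)}

/-- LKG (the contribution of a crossed lift).

Proof. `D = fd lam a b`.  If `D ≤ m/96`: LKA, LKB: `≤ 3CD²/m² ≤ 3C om` (`D²/m² ≤ min(1,(1+D)²/m²)`).  If `D > m/96`: `om ≥ (1/96²)(1+|log(|a|/|b|)|)`; LKC and LKD: `≤ C'om + (C/m²)(C + 2π len)`, `C/m² ≤ C ≤ C·96² om`.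
Hypotheses: hFDC hLKA hLKB hLKC hLKD. -/
def StLKG : Prop := ∀ c0 : ℝ, 1 ≤ c0 → ∃ C m₁ : ℝ, 0 < C ∧ ∀ (Γ : Type) [Group Γ] (ρ : Γ →* SL) (A B : Set ℂ) (α : Γ) (lam : ℂ) (M : ℝ)
  (G : ℂ → ℂ) (m : ℝ) (φ : ℂ → ℂ) (C3 : ℝ), Ann ρ A B α lam M G m φ C3 → Cls A B lam G φ m → m₁ ≤ m →
  ∀ (μ0 : ℂ) (μ : ℂ → ℂ), Cof ρ A lam G φ m μ0 μ → ‖μ0‖ ≤ 1 → ∀ a ∈ LS A B, ∀ b ∈ LS A B, a ≠ 0 → b ≠ 0 → a ≠ b →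
    ENNReal.ofReal ‖∫ ξ in EE lam G φ 0 m, μ ξ * th a b ξ‖ ≤ ENNReal.ofReal (C * om lam m a b) +
      ENNReal.ofReal (C / m ^ 2) * volume {u : ℝ | 2 * c0 < TT lam (gp a b u)}

/-- UNB (unfolding of sums over cosets).

Proof. `Q = Γ ⧸ zpowers α` (countable or not: sums in `ℝ≥0∞`; if `Γ` is not countable both sides are still equal by `ENNReal.tsum_comm` and Tonelli for each term).  `γ` acts on `Q` by left multiplication, `c : Q → ℝ` and `Ψ : Q → ℝ → ℝ≥0∞` induced by `cf`, `Φ` (well defined), `c(γq) = c(q) - l`, so the map `ℤ × Q₀ → Q`, `(n,q) ↦ γ^n q`, `Q₀ = {q : c q ∈ [u₁,u₁+l)}`, is a bijection.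
`∑_q ∫_I Ψ q = ∑_(q∈Q₀) ∑_n ∫_I Ψ(γ^n q)(u) du = ∑_(q∈Q₀) ∑_n ∫_(I+nl) Ψ q (u) du = ∑_(q∈Q₀) ∫_ℝ Ψ q`. -/
def StUNB : Prop := ∀ (Γ : Type) [Group Γ] (α γ : Γ) (l u₁ : ℝ) (cf : Γ → ℝ) (Φ : Γ → ℝ → ℝ≥0∞), 0 < l →
  (∀ g, cf (γ * g) = cf g - l) → (∀ (g : Γ) (n : ℤ), cf (g * α ^ n) = cf g) →
  (∀ g, Measurable (Φ g)) → (∀ (g : Γ) (u : ℝ), Φ (γ * g) u = Φ g (u + l)) → (∀ (g : Γ) (n : ℤ), Φ (g * α ^ n) = Φ g) →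
  ∑' q : Γ ⧸ Subgroup.zpowers α, (Ico u₁ (u₁ + l)).indicator (fun _ => ∫⁻ u : ℝ, Φ q.out u) (cf q.out) =
    ∑' q : Γ ⧸ Subgroup.zpowers α, ∫⁻ u in Ico u₁ (u₁ + l), Φ q.out u

/-- UNA (unfolding of the first variation integral).

Proof. `F = Fm a b l.re`-domain: `F = {1 ≤ |crd| < e^(Re l)}`, `crd ξ = (ξ-a)/(ξ-b)`, `crd (mb (ρ γ) ξ) = e^l crd ξ`; the sets `mb (ρ γ^n) '' F` are disjoint and cover `ℂ` up to a null set.  `h = μ th a b`, `|h| ≤ |th|`, `∫_F |th| = ∫_(1≤|η|<e^(Re l)) dη/|η|² = 2πRe l < ∞` (`η = crd ξ`).  With `E_g = mb (ρ g) '' E`: depends only on the coset (`mb (ρ α^n) '' E = E`: ANA, `ff(w+1) = e^lam ff w`), pairwise disjoint for different cosets,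
`h = 0` off `⋃ E_g` (Cof), so `∫_F h = ∑_q ∫_(F ∩ E_q) h` (absolutely convergent).  By invariance (TRA (4) for `γ`; `mb (ρ γ) a = a`, `mb (ρ γ) b = b`) `∫_(F ∩ E_(γ^n q)) h = ∫_(γ^(-n)F ∩ E_q) h`.  Every coset is uniquely `γ^n q`, `c(q) ∈ I = [u₁,u₁+Re l)` (`c = cen`, GPM (3), (6), DFX).  So `∫_F h = ∑_(q : c(q)∈I) ∑_n ∫_(γ^(-n)F ∩ E_q) h = ∑_(q : c(q)∈I) ∫_(E_q) h`
(`h` integrable on `E_q`: `∑_n ∑.. |h| = ∫_F |h| < ∞`); take norms.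
Hypotheses: hCHV hACU hANA hANB hTRA hGPM hDFX. -/
def StUNA : Prop := ∀ (Γ : Type) [Group Γ] (ρ : Γ →* SL) (A B : Set ℂ) (α : Γ) (lam : ℂ) (M : ℝ) (G : ℂ → ℂ) (m : ℝ)
  (φ : ℂ → ℂ) (C3 : ℝ), Ann ρ A B α lam M G m φ C3 → ∀ (μ0 : ℂ) (μ : ℂ → ℂ), Cof ρ A lam G φ m μ0 μ →
  ∀ (γ : Γ) (a b l : ℂ), (∀ (g : Γ) (n : ℤ), g⁻¹ * γ * g ≠ α ^ n) → Mlt (ρ γ) a b l → 0 < l.re → ∀ u₁ : ℝ,
    ENNReal.ofReal ‖∫ ξ in Fm a b l, μ ξ * th a b ξ‖ ≤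
      ∑' q : Γ ⧸ Subgroup.zpowers α, (Ico u₁ (u₁ + l.re)).indicator
        (fun _ => ENNReal.ofReal ‖∫ ξ in mb (ρ q.out) '' EE lam G φ 0 m, μ ξ * th a b ξ‖) (cen ρ q.out a b)

open Classical in
/-- TOT (the first variation of the complex length is controlled by the crossings).

Proof. UNA; for `g = q.out`, `a' = mb (ρ g⁻¹) a`, `b' = mb (ρ g⁻¹) b ∈ LS \ {0}` (DFX): `∫_(E_g) μ th a b = ∫_E μ th a' b'` (TRA).  *Uncrossed lifts* (`Tg ≤ 2c0` on the whole geodesic): LKA: `≤ 3∫_(E^mid)|th a' b'| = 3∫_(E_g^mid)|th a b| = 6π ∫ hv(E_g^mid)(gp a b u) du` (TRA, CRF).  UNB with `Φ g u = 1_(g uncrossed) ofReal hv(E_g^mid)(gp a b u)` (invariance: GPM, HME (8)/TRA (2)): the sum over `c(q) ∈ I` is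
`6π ∫_I ∑_q 1_(uncrossed) hv(E_q^mid)(gp a b u) du ≤ 6π Re l C bb²/m²` (LIC, `sb ≤ 0` by SB5).  *Crossed lifts*: LKG: `≤ C om(a',b') + (C/m²) len_g`, `len_g = volume {u | 2c0 < TT lam (gp a' b' u)} = volume {u | 2c0 < Tg ρ lam g (gp a b u)}` (GPM (1), translation invariance); `∑_(c(q)∈I) len_q = ∫_I #{q : 2c0 < Tg ρ lam q (gp a b u)} du ≤ Re l` (UNB with `Φ g u = 1`;
at most one coset by DTub: if `Tg ρ lam g₁ x, Tg ρ lam g₂ x ≥ c0` then with `x' = ga (ρ g₁⁻¹) x`: `TT lam x' ≥ c0`, `Tg ρ lam (g₁⁻¹g₂) x' ≥ c0`).  `1/m² ≤ bb²/m²`.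
Hypotheses: hACT hCHV hHME hACU hSB5 hANA hANB hTRA hLIC hCRF hGPM hTGF hDFX hLKA hLKG hUNA hUNB. -/
def StTOT : Prop := ∀ C3 c0 : ℝ, 0 ≤ C3 → 1 ≤ c0 → ∃ C : ℝ, 1 ≤ C ∧ ∀ (Γ : Type) [Group Γ] (ρ : Γ →* SL) (A B : Set ℂ) (α : Γ) (lam : ℂ)
  (M : ℝ) (G : ℂ → ℂ) (m : ℝ) (φ : ℂ → ℂ) (bb : ℝ), Ann ρ A B α lam M G m φ C3 → Cls A B lam G φ m → DTub ρ α lam c0 →
  Bnd A B lam bb → C * bb ≤ m → ∀ (μ0 : ℂ) (μ : ℂ → ℂ), Cof ρ A lam G φ m μ0 μ → ‖μ0‖ ≤ 1 →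
  ∀ (γ : Γ) (a b l : ℂ), (∀ (g : Γ) (n : ℤ), g⁻¹ * γ * g ≠ α ^ n) → Mlt (ρ γ) a b l → 0 < l.re → ∀ u₁ : ℝ,
    ENNReal.ofReal ‖∫ ξ in Fm a b l, μ ξ * th a b ξ‖ ≤ ENNReal.ofReal (C * bb ^ 2 / m ^ 2 * l.re) + ENNReal.ofReal C *
      ∑' q : Γ ⧸ Subgroup.zpowers α, if Crs ρ lam c0 a b q.out ∧ cen ρ q.out a b ∈ Ico u₁ (u₁ + l.re) then
        ENNReal.ofReal (om lam m (mb (ρ q.out⁻¹) a) (mb (ρ q.out⁻¹) b)) else 0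

end Pool.Agent.Helper85.QT
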