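import Pool.Agent.Helper86.QA.All
import Pool.Agent.Helper85.QT.St3
import Pool.Agent.Helper11.QT.M_TOT
import Pool.Agent.Helper14.QT.M_ANA
import Pool.Agent.Helper14.QT.M_SB7
import Pool.Agent.Helper15.QT.M_LKE
import Pool.Agent.Helper19.QT.M_LKF
import Pool.Agent.Helper2.QT.M_PK3
import Pool.Agent.Helper21.QT.M_SB1
import Pool.Agent.Helper21.QT.M_SH3
import Pool.Agent.Helper22.QT.M_LIA
import Pool.Agent.Helper24.QT.M_BAN
import Pool.Agent.Helper26.QT.M_NEA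
import Pool.Agent.Helper29.QT.M_PK1
import Pool.Agent.Helper29.QT.M_SB2
import Pool.Agent.Helper29.QT.M_SB6
import Pool.Agent.Helper3.QT.M_TTX
import Pool.Agent.Helper31.QT.M_ANB
import Pool.Agent.Helper31.QT.M_CLA
import Pool.Agent.Helper31.QT.M_HN2
import Pool.Agent.Helper36.QT.M_LKG
import Pool.Agent.Helper36.QT.M_SH6
import Pool.Agent.Helper37.QT.M_FLT
import Pool.Agent.Helper37.QT.M_SH4
import Pool.Agent.Helper39.QT.M_LKA
import Pool.Agent.Helper39.QT.M_LKB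
import Pool.Agent.Helper39.QT.M_LKD
import Pool.Agent.Helper40.QT.M_DFX
import Pool.Agent.Helper40.QT.M_LSD
import Pool.Agent.Helper40.QT.M_PK2
import Pool.Agent.Helper40.QT.M_SB0
import Pool.Agent.Helper5.QT.M_SH5
import Pool.Agent.Helper5.QT.M_TRI
import Pool.Agent.Helper52.QT.M_SB5
import Pool.Agent.Helper53.QT.M_UNB
import Pool.Agent.Helper56.QT.M_BND
import Pool.Agent.Helper60.QT.M_LIB
import Pool.Agent.Helper60.QT.M_SH2
import Pool.Agent.Helper62.QT.M_SB4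
import Pool.Agent.Helper66.QT.M_CRF
import Pool.Agent.Helper66.QT.M_HN1
import Pool.Agent.Helper66.QT.M_PUL
import Pool.Agent.Helper66.QT.M_TGF
import Pool.Agent.Helper67.QT.M_UNA
import Pool.Agent.Helper74.QT.M_HLI
import Pool.Agent.Helper75.QT.M_FUL
import Pool.Agent.Helper78.QT.M_CAN
import Pool.Agent.Helper78.QT.M_GPM
import Pool.Agent.Helper78.QT.M_KQ
import Pool.Agent.Helper79.QT.M_VIS
import Pool.Agent.Helper8.QT.M_LKC
import Pool.Agent.Helper80.QT.M_HN3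
import Pool.Agent.Helper80.QT.M_SH1
import Pool.Agent.Helper81.QT.M_GLS
import Pool.Agent.Helper81.QT.M_TIN
import Pool.Agent.Helper82.QT.M_LIC
import Pool.Agent.Helper89.QT.M_SB3
import Pool.Agent.Helper93.QT.M_TRA
import Pool.Agent.Helper94.QT.M_FDC
import Pool.Agent.Helper97.QT.M_LKZ

/-!
# Project QT: assembly of the tube theorem, parts 1 to 5, 7 to 9 (no hypotheses)
-/

set_option autoImplicit false

namespace Pool.Agent.Helper85.QT

theorem tSB0 : StSB0 := Pool.Agent.Helper40.QT.hSB0 Pool.Agent.Helper86.QA.tACT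

theorem tSB1 : StSB1 := Pool.Agent.Helper21.QT.hSB1 tSB0

theorem tSB2 : StSB2 := Pool.Agent.Helper29.QT.hSB2 tSB0 tSB1

theorem tSB3 : StSB3 := Pool.Agent.Helper89.QT.hSB3 Pool.Agent.Helper86.QA.tACT Pool.Agent.Helper86.QA.tCHV tSB0 tSB1

theorem tSB4 : StSB4 := Pool.Agent.Helper62.QT.hSB4 Pool.Agent.Helper86.QA.tACT Pool.Agent.Helper86.QA.tCHI tSB0 tSB1

theorem tSB5 : StSB5 := Pool.Agent.Helper52.QT.hSB5 Pool.Agent.Helper86.QA.tCHI tSB0 tSB1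

theorem tSB6 : StSB6 := Pool.Agent.Helper29.QT.hSB6 tSB0 tSB1 tSB3

theorem tSB7 : StSB7 := Pool.Agent.Helper14.QT.hSB7 tSB0 tSB1

theorem tSH1 : StSH1 := Pool.Agent.Helper80.QT.hSH1 Pool.Agent.Helper86.QA.tACT Pool.Agent.Helper86.QA.tPOI Pool.Agent.Helper86.QA.tCHV tSB3 tSB4

theorem tSH2 : StSH2 := Pool.Agent.Helper60.QT.hSH2 

theorem tKQ : StKQ := Pool.Agent.Helper78.QT.hKQ 

theorem tSH3 : StSH3 := Pool.Agent.Helper21.QT.hSH3 tSB2 tSH2 tKQ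

theorem tSH4 : StSH4 := Pool.Agent.Helper37.QT.hSH4 Pool.Agent.Helper86.QA.tVOL Pool.Agent.Helper86.QA.tPOI tSB0 tSB1

theorem tSH5 : StSH5 := Pool.Agent.Helper5.QT.hSH5 Pool.Agent.Helper86.QA.tCHV

theorem tSH6 : StSH6 := Pool.Agent.Helper36.QT.hSH6 Pool.Agent.Helper86.QA.tSW0 Pool.Agent.Helper86.QA.tACU tSH1 tSH3 tSH4 tSH5 tSB4

theorem tCAN : StCAN := Pool.Agent.Helper78.QT.hCAN Pool.Agent.Helper86.QA.tCHI Pool.Agent.Helper86.QA.tVOL Pool.Agent.Helper86.QA.tKRN Pool.Agent.Helper86.QA.tALP Pool.Agent.Helper86.QA.tSW0 Pool.Agent.Helper86.QA.tSW1 Pool.Agent.Helper86.QA.tACU Pool.Agent.Helper86.QA.tSCH tSB1 tSB3 tSB4 tSB6 tSB7 tSH6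

theorem tPK1 : StPK1 := Pool.Agent.Helper29.QT.hPK1 Pool.Agent.Helper86.QA.tACT Pool.Agent.Helper86.QA.tCHI Pool.Agent.Helper86.QA.tVOL

theorem tPK2 : StPK2 := Pool.Agent.Helper40.QT.hPK2 Pool.Agent.Helper86.QA.tACT Pool.Agent.Helper86.QA.tCHI Pool.Agent.Helper86.QA.tPOI Pool.Agent.Helper86.QA.tCHV Pool.Agent.Helper86.QA.tSW0 Pool.Agent.Helper86.QA.tACU Pool.Agent.Helper86.QA.tPD1 tPK1

theorem tPK3 : StPK3 := Pool.Agent.Helper2.QT.hPK3 Pool.Agent.Helper86.QA.tACT Pool.Agent.Helper86.QA.tCHI Pool.Agent.Helper86.QA.tVOL Pool.Agent.Helper86.QA.tSW1 Pool.Agent.Helper86.QA.tACU Pool.Agent.Helper86.QA.tPD3 tPK2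

theorem tANA : StANA := Pool.Agent.Helper14.QT.hANA Pool.Agent.Helper86.QA.tACT Pool.Agent.Helper86.QA.tPD2 tSB3

theorem tFDC : StFDC := Pool.Agent.Helper94.QT.hFDC 

theorem tTRI : StTRI := Pool.Agent.Helper5.QT.hTRI Pool.Agent.Helper86.QA.tACT Pool.Agent.Helper86.QA.tCHI

theorem tFLT : StFLT := Pool.Agent.Helper37.QT.hFLT 

theorem tHN1 : StHN1 := Pool.Agent.Helper66.QT.hHN1 tKQ

theorem tHN2 : StHN2 := Pool.Agent.Helper31.QT.hHN2 tHN1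

theorem tHN3 : StHN3 := Pool.Agent.Helper80.QT.hHN3 

theorem tANB : StANB := Pool.Agent.Helper31.QT.hANB tHN3

theorem tCLA : StCLA := Pool.Agent.Helper31.QT.hCLA Pool.Agent.Helper86.QA.tHME Pool.Agent.Helper86.QA.tACU tSB1 tSB6

theorem tLSD : StLSD := Pool.Agent.Helper40.QT.hLSD tFDC tHN1 tHN2 tANB

theorem tFUL : StFUL := Pool.Agent.Helper75.QT.hFUL tHN1 tHN2

theorem tGLS : StGLS := Pool.Agent.Helper81.QT.hGLS tKQ tANB

theorem tBAN : StBAN := Pool.Agent.Helper24.QT.hBAN tFDC tHN1 tANB tCLA tFUL tGLS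

theorem tTRA : StTRA := Pool.Agent.Helper93.QT.hTRA Pool.Agent.Helper86.QA.tCHV Pool.Agent.Helper86.QA.tHME

theorem tCRF : StCRF := Pool.Agent.Helper66.QT.hCRF Pool.Agent.Helper86.QA.tHME tSB5

theorem tTGF : StTGF := Pool.Agent.Helper66.QT.hTGF Pool.Agent.Helper86.QA.tACT Pool.Agent.Helper86.QA.tCHV tSB5

theorem tDFX : StDFX := Pool.Agent.Helper40.QT.hDFX Pool.Agent.Helper86.QA.tCHV Pool.Agent.Helper86.QA.tPD2 tSB3 tANA

theorem tHLI : StHLI := Pool.Agent.Helper74.QT.hHLI 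

theorem tPUL : StPUL := Pool.Agent.Helper66.QT.hPUL tANB

theorem tLKA : StLKA := Pool.Agent.Helper39.QT.hLKA tHLI tPUL

theorem tLKZ : StLKZ := Pool.Agent.Helper97.QT.hLKZ tFDC tFLT

theorem tLKB : StLKB := Pool.Agent.Helper39.QT.hLKB tFDC tANB tLSD tLKZ

theorem tLKE : StLKE := Pool.Agent.Helper15.QT.hLKE tANB tLSD

theorem tLKF : StLKF := Pool.Agent.Helper19.QT.hLKF 

theorem tLKC : StLKC := Pool.Agent.Helper8.QT.hLKC tHN1 tHN2 tANB tHLI tPUL tLKE tLKF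

theorem tTIN : StTIN := Pool.Agent.Helper81.QT.hTIN Pool.Agent.Helper86.QA.tACT tTGF

theorem tUNB : StUNB := Pool.Agent.Helper53.QT.hUNB 

theorem tTTX : StTTX := Pool.Agent.Helper3.QT.hTTX tTRI

theorem tVIS : StVIS := Pool.Agent.Helper79.QT.hVIS tTTX

theorem tNEA : StNEA := Pool.Agent.Helper26.QT.hNEA tSB1 tSB2 tFDC tTTX

theorem tBND : StBND := Pool.Agent.Helper56.QT.hBND Pool.Agent.Helper86.QA.tACT Pool.Agent.Helper86.QA.tCHI Pool.Agent.Helper86.QA.tVOL Pool.Agent.Helper86.QA.tSW1 Pool.Agent.Helper86.QA.tACU Pool.Agent.Helper86.QA.tPD3 tSB3 tSB4 tCAN tTRI tTTX tNEA tANA tANB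

theorem tLIA : StLIA := Pool.Agent.Helper22.QT.hLIA Pool.Agent.Helper86.QA.tHME tFDC tTTX tVIS tFLT tNEA tANB tLSD

theorem tLIB : StLIB := Pool.Agent.Helper60.QT.hLIB Pool.Agent.Helper86.QA.tHME tFDC tTTX tVIS tNEA tANB tBAN

theorem tLIC : StLIC := Pool.Agent.Helper82.QT.hLIC Pool.Agent.Helper86.QA.tACT Pool.Agent.Helper86.QA.tCHV Pool.Agent.Helper86.QA.tHME tSB3 tANB tTRA tLIA tLIB

theorem tGPM : StGPM := Pool.Agent.Helper78.QT.hGPM Pool.Agent.Helper86.QA.tACT Pool.Agent.Helper86.QA.tCHV tSB5 tTTX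

theorem tLKD : StLKD := Pool.Agent.Helper39.QT.hLKD Pool.Agent.Helper86.QA.tHME tSB5 tANB tLIA tCRF tTIN

theorem tLKG : StLKG := Pool.Agent.Helper36.QT.hLKG tLKA tLKB tLKC tLKD

theorem tUNA : StUNA := Pool.Agent.Helper67.QT.hUNA Pool.Agent.Helper86.QA.tCHV Pool.Agent.Helper86.QA.tACU tANA tANB tTRA tGPM tDFX

theorem tTOT : StTOT := Pool.Agent.Helper11.QT.hTOT Pool.Agent.Helper86.QA.tACT Pool.Agent.Helper86.QA.tCHV Pool.Agent.Helper86.QA.tHME Pool.Agent.Helper86.QA.tACU tSB5 tANA tANB tTRA tLIC tCRF tGPM tTGF tDFX tLKA tLKG tUNA tUNB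

end Pool.Agent.Helper85.QT
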