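import Pool.Agent.Helper85.QT.St1

/-!
# Project QT (MP_d112a4_gt): further definitions (sections 5, 7, 8, 9 of the tube theorem)
-/

set_option autoImplicit false

open MeasureTheory Matrix Set Topology
open scoped ENNReal ComplexConjugate

namespace Pool.Agent.Helper85.QT

open Pool.Agent.Helper86.QA

/-- height of a point of a strip above the nearer boundary line -/
noncomputable def dd (m : ℝ) (w : ℂ) : ℝ := min w.im (m - w.im)

/-- `f` is an injective holomorphic map of the strip of height `m` commuting with the unit translation -/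
structure HN (m : ℝ) (f : ℂ → ℂ) : Prop where
  dif : DifferentiableOn ℂ f (Sm m)
  inj : InjOn f (Sm m)
  per : ∀ w ∈ Sm m, f (w + 1) = f w + 1

/-- the map of the strip into `A` -/
noncomputable def ff (lam : ℂ) (G φ : ℂ → ℂ) (w : ℂ) : ℂ := Complex.exp (lam * G (φ w))

/-- `bb` bounds the number of limit points which are pairwise at flat distance at least one -/
def Bnd (A B : Set ℂ) (lam : ℂ) (bb : ℝ) : Prop :=
  1 ≤ bb ∧ ∀ P : Finset ℂ, (∀ ξ ∈ P, ξ ∈ LS A B ∧ ξ ≠ 0) →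
    (∀ ξ ∈ P, ∀ η ∈ P, ξ ≠ η → ∀ n : ℤ, 1 ≤ fd lam (Complex.exp (n * lam) * ξ) η) → (P.card : ℝ) ≤ bb

/-- the tube of flat height `c0` is disjoint from its translates -/
def DTub {Γ : Type} [Group Γ] (ρ : Γ →* SL) (α : Γ) (lam : ℂ) (c0 : ℝ) : Prop :=
  ∀ g : Γ, ∀ x ∈ up, c0 ≤ TT lam x → c0 ≤ Tg ρ lam g x → ∃ n : ℤ, g = α ^ n

/-- balls about the points of flat height `2 c0` are embedded -/
def EBal {Γ : Type} [Group Γ] (ρ : Γ →* SL) (lam : ℂ) (c0 ε : ℝ) : Prop :=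
  ∀ x ∈ up, TT lam x = 2 * c0 → ∀ γ : Γ, γ ≠ 1 → ∀ z ∈ up, ch x z ≤ 1 + ε → 1 + ε < ch x (au ρ γ z)

/-- the annulus stays away from the limit points other than the two fixed points -/
def Cls (A B : Set ℂ) (lam : ℂ) (G φ : ℂ → ℂ) (m : ℝ) : Prop :=
  ∀ a ∈ LS A B, a ≠ 0 → ∃ ε > 0, ∀ ξ ∈ EE lam G φ 0 m, ε ≤ ‖ξ - a‖

/-- `μ` is an invariant Beltrami coefficient on `A`, supported on the translates of the annulus, constant
`μ0` in the coordinate of the annulus -/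
structure Cof {Γ : Type} [Group Γ] (ρ : Γ →* SL) (A : Set ℂ) (lam : ℂ) (G φ : ℂ → ℂ) (m : ℝ)
    (μ0 : ℂ) (μ : ℂ → ℂ) : Prop where
  me : Measurable μ
  le : ∀ ξ, ‖μ ξ‖ ≤ 1
  inv : ∀ γ : Γ, ∀ ξ ∈ A, μ (mb (ρ γ) ξ) * conj (((ρ γ) 1 0 * ξ + (ρ γ) 1 1) ^ 2)⁻¹ =
    μ ξ * (((ρ γ) 1 0 * ξ + (ρ γ) 1 1) ^ 2)⁻¹
  sup : ∀ ξ, (∀ g : Γ, ξ ∉ mb (ρ g) '' EE lam G φ 0 m) → μ ξ = 0
  aff : ∀ w ∈ Sm m, μ (ff lam G φ w) * conj (deriv (ff lam G φ) w) = μ0 * deriv (ff lam G φ) w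

/-- the quadratic differential of the geodesic with end points `a, b` -/
noncomputable def th (a b ξ : ℂ) : ℂ := (a - b) ^ 2 / ((ξ - a) ^ 2 * (ξ - b) ^ 2)

/-- `g` has the fixed points `a ≠ b` and is multiplication by `e^l` in the coordinate `(ξ-a)/(ξ-b)`
(the same as `Helper68.QC.Mult`) -/
def Mlt (g : SL) (a b l : ℂ) : Prop :=
  a ≠ b ∧ g 1 0 * a + g 1 1 ≠ 0 ∧ mb g a = a ∧ g 1 0 * b + g 1 1 ≠ 0 ∧ mb g b = b ∧
  ∀ ξ, ξ ≠ b → g 1 0 * ξ + g 1 1 ≠ 0 → (mb g ξ - a) / (mb g ξ - b) = Complex.exp l * ((ξ - a) / (ξ - b))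

/-- fundamental domain of an element with fixed points `a, b` and multiplier `e^l` -/
def Fm (a b l : ℂ) : Set ℂ := {ξ | 1 ≤ ‖(ξ - a) / (ξ - b)‖ ∧ ‖(ξ - a) / (ξ - b)‖ < Real.exp l.re}

/-- product of numerator and denominator of `g⁻¹` at `a` -/
noncomputable def pq {Γ : Type} [Group Γ] (ρ : Γ →* SL) (g : Γ) (a : ℂ) : ℂ :=
  ((ρ g⁻¹) 0 0 * a + (ρ g⁻¹) 0 1) * ((ρ g⁻¹) 1 0 * a + (ρ g⁻¹) 1 1)

/-- the parameter of the point of the geodesic `b, a` which is deepest in the lift `g` of the tube -/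
noncomputable def cen {Γ : Type} [Group Γ] (ρ : Γ →* SL) (g : Γ) (a b : ℂ) : ℝ :=
  1 / 2 * Real.log (‖pq ρ g b‖ / ‖pq ρ g a‖)

/-- the lift `g` of the tube is crossed by the geodesic `b, a` -/
def Crs {Γ : Type} [Group Γ] (ρ : Γ →* SL) (lam : ℂ) (c0 : ℝ) (a b : ℂ) (g : Γ) : Prop :=
  ∃ u : ℝ, 2 * c0 < Tg ρ lam g (gp a b u)

/-- the weight of a crossing with end points `a, b` (in the normalisation of the tube) -/
noncomputable def om (lam : ℂ) (m : ℝ) (a b : ℂ) : ℝ :=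
  min 1 ((1 + fd lam a b) ^ 2 / m ^ 2) * (1 + |Real.log (‖a‖ / ‖b‖)|)

end Pool.Agent.Helper85.QT
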