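import Pool.Agent.Helper86.QA.St2

/-!
# Project QD, stage 2 (MP_d112a4_gt): the thin part.  Definitions.

Model: helper86's library `QA` (upper half space `up` of `ℂ × ℝ`, `ga`, `mb`, `ch`, `kk`, `pp`, `hv`, `Xm`, Kleinian data
`KD ρ A B` with `∞` in the limit set).  Round discs (half spaces) are Hermitian matrices of determinant `-1`.
-/

set_option autoImplicit false

open MeasureTheory Matrix Set Topology
open scoped ENNReal ComplexConjugate

namespace Pool.Agent.Helper85.QT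

open Pool.Agent.Helper86.QA

/-- the finite part of the limit set -/
def LS (A B : Set ℂ) : Set ℂ := (A ∪ B)ᶜ

/-- the value of the Hermitian form `H` on the vector `(ξ, 1)` -/
noncomputable def qf (H : Mat) (ξ : ℂ) : ℝ :=
  (conj ξ * H 0 0 * ξ + conj ξ * H 0 1 + H 1 0 * ξ + H 1 1).re

/-- hyperbolic sine of the signed distance of `x` to the half space of `H` (positive inside) -/
noncomputable def hf (H : Mat) (x : Pt) : ℝ := -(1 / 2) * ((H * Xm x).trace).re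

/-- the form of the disc with centre `c` and radius `r`:  `qf (bH c r) ξ = (|ξ-c|² - r²)/r` -/
noncomputable def bH (c : ℂ) (r : ℝ) : Mat :=
  !![((1 / r : ℝ) : ℂ), -(c / (r : ℂ)); -(conj c / (r : ℂ)), (((‖c‖ ^ 2 - r ^ 2) / r : ℝ) : ℂ)]

/-- half spaces over (generalised) discs which do not meet the limit set -/
def AdF (A B : Set ℂ) (H : Mat) : Prop :=
  H.IsHermitian ∧ H.det = -1 ∧ 0 ≤ (H 0 0).re ∧ ∀ ξ ∈ LS A B, 0 ≤ qf H ξ

/-- hyperbolic sine of the (signed) distance to the convex hull of the limit set -/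
noncomputable def sb (A B : Set ℂ) (x : Pt) : ℝ := sSup {v : ℝ | ∃ H : Mat, AdF A B H ∧ v = hf H x}

/-- pairs `(x, ξ)`: `x` near the hull, `ξ ∈ A`, and no limit point (including `∞`) is seen from `x`
at small angle from `ξ` -/
def ZZ (A B : Set ℂ) (S : ℝ) : Set (Pt × ℂ) :=
  {p | p.1 ∈ up ∧ p.2 ∈ A ∧ sb A B p.1 ≤ S ∧ 1 ≤ 4 * p.1.2 * pp p.1 p.2 ∧
    ∀ k ∈ LS A B, 1 ≤ 4 * ‖p.2 - k‖ ^ 2 * pp p.1 p.2 * pp p.1 k}

/-- the series `∑ cosh(d(x, γ y))^(-s)` -/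
noncomputable def PS {Γ : Type} [Group Γ] (ρ : Γ →* SL) (s : ℝ) (x y : Pt) : ℝ≥0∞ :=
  ∑' γ : Γ, ENNReal.ofReal (ch x (au ρ γ y) ^ (-s))

/-- `|z|² + t²` -/
noncomputable def NN (x : Pt) : ℝ := ‖x.1‖ ^ 2 + x.2 ^ 2

/-- hyperbolic cosine of the distance to the axis `{z = 0}` -/
noncomputable def cR (x : Pt) : ℝ := Real.sqrt (NN x) / x.2

/-- flat height over the torus of `λ`: `1/(|λ| cosh R)` -/
noncomputable def TT (lam : ℂ) (x : Pt) : ℝ := x.2 / (‖lam‖ * Real.sqrt (NN x))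

/-- radial projection to the boundary -/
noncomputable def rd (x : Pt) : ℂ := x.1 * ((Real.sqrt (NN x) / ‖x.1‖ : ℝ) : ℂ)

/-- flat distance on `ℂ \ {0} = ℂ / (2πi/λ) ℤ` -/
noncomputable def fd (lam ξ η : ℂ) : ℝ := ‖Complex.log (ξ / η)‖ / ‖lam‖

/-- the point over `ξ` at flat height `T` -/
noncomputable def xp (lam : ℂ) (T : ℝ) (ξ : ℂ) : Pt :=
  (ξ * ((Real.sqrt (1 - (T * ‖lam‖) ^ 2) : ℝ) : ℂ), ‖ξ‖ * (T * ‖lam‖))

/-- horizontal strip -/
def Sm (m : ℝ) : Set ℂ := {w | 0 < w.im ∧ w.im < m}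

/-- the strip of heights between `a` and `b` -/
def Sab (a b : ℝ) : Set ℂ := {w | a < w.im ∧ w.im < b}

/-- An embedded annulus of modulus `m` on the surface `A/Γ` in the class of `α`, in the
normalisation where `ρ α` is multiplication by `exp lam`.  `exp (lam * G)` is the conformal map of the strip of height `M` onto `A`
(so `A/⟨α⟩` is an annulus of modulus `M`), `φ` the inclusion of the annulus into `A/⟨α⟩`. -/
structure Ann {Γ : Type} [Group Γ] (ρ : Γ →* SL) (A B : Set ℂ) (α : Γ) (lam : ℂ) (M : ℝ)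
    (G : ℂ → ℂ) (m : ℝ) (φ : ℂ → ℂ) (C3 : ℝ) : Prop where
  kd : KD ρ A B
  re : 0 < lam.re
  dg : (ρ α) 0 1 = 0 ∧ (ρ α) 1 0 = 0
  mu : (ρ α) 0 0 = Complex.exp lam * (ρ α) 1 1
  st : ∀ γ : Γ, ((ρ γ) 0 1 = 0 ∧ (ρ γ) 1 0 = 0) ∨ ((ρ γ) 0 0 = 0 ∧ (ρ γ) 1 1 = 0) → ∃ n : ℤ, γ = α ^ n
  Gh : DifferentiableOn ℂ G (Sm M)
  G1 : ∀ w ∈ Sm M, G (w + 1) = G w + 1
  Gb : BijOn (fun w => Complex.exp (lam * G w)) (Sm M) A
  m1 : 1 ≤ m
  ph : DifferentiableOn ℂ φ (Sm m)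
  pm : MapsTo φ (Sm m) (Sm M)
  pi : InjOn φ (Sm m)
  p1 : ∀ w ∈ Sm m, φ (w + 1) = φ w + 1
  fu : M ≤ m + C3
  dj : ∀ γ : Γ, (∀ n : ℤ, γ ≠ α ^ n) →
    Disjoint (mb (ρ γ) '' ((fun w => Complex.exp (lam * G (φ w))) '' Sm m))
      ((fun w => Complex.exp (lam * G (φ w))) '' Sm m)

/-- the part of heights in `(a,b)` of the annulus, lifted to `A` -/
noncomputable def EE (lam : ℂ) (G φ : ℂ → ℂ) (a b : ℝ) : Set ℂ :=
  (fun w => Complex.exp (lam * G (φ w))) '' Sab a b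

/-- flat height over the lift `g` of the tube -/
noncomputable def Tg {Γ : Type} [Group Γ] (ρ : Γ →* SL) (lam : ℂ) (g : Γ) (x : Pt) : ℝ :=
  TT lam (ga (ρ g⁻¹) x)

/-- the geodesic with endpoints `a, b ∈ ℂ` (Hermitian matrices which are combinations of the two
rank one matrices) -/
def geo (a b : ℂ) : Set Pt :=
  {x | x ∈ up ∧ ∃ s s' : ℝ, 0 < s ∧ 0 < s' ∧
    Xm x = (s : ℂ) • !![a * conj a, a; conj a, 1] + (s' : ℂ) • !![b * conj b, b; conj b, 1]}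

/-- the point of parameter `u` on the geodesic from `b` (`u → -∞`) to `a` (`u → ∞`) -/
noncomputable def gp (a b : ℂ) (u : ℝ) : Pt :=
  (((Real.exp u : ℝ) * a + (Real.exp (-u) : ℝ) * b) / ((Real.exp u + Real.exp (-u) : ℝ) : ℂ),
    ‖a - b‖ / (Real.exp u + Real.exp (-u)))

end Pool.Agent.Helper85.QT
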